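import Mathlib

set_option autoImplicit false

/-! Finite free resolutions (elementary), conversion from Mathlib's projective dimension,
the trace lemma, and the freeness lemma in depth at most one. -/

open CategoryTheory IsLocalRing Function

namespace Pool.Agent.H661R3.VN

universe u

/-- `FR S n M`: the `S`-module `M` has a free resolution of length at most `n` by finite free
modules. -/
def FR (S : Type u) [CommRing S] : ℕ → (M : Type u) → [AddCommGroup M] → [Module S M] → Prop
  | 0, M, _, _ => Module.Free S M ∧ Module.Finite S M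
  | n + 1, M, _, _ => ∃ (k : ℕ) (p : (Fin k → S) →ₗ[S] M), Surjective p ∧
      FR S n (LinearMap.ker p)

theorem fr_of_pd {S : Type u} [CommRing S] [IsNoetherianRing S] [IsLocalRing S] (n : ℕ) :
    ∀ (M : Type u) [AddCommGroup M] [Module S M] [Module.Finite S M],
      HasProjectiveDimensionLT (ModuleCat.of S M) (n + 1) → FR S n M := by
  induction n with
  | zero =>
    intro M _ _ _ h
    have h1 : Projective (ModuleCat.of S M) := projective_iff_hasProjectiveDimensionLT_one.2 h
    have h2 : Module.Projective S M := (IsProjective.iff_projective (R := S) M).2 h1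
    exact ⟨Module.free_of_flat_of_isLocalRing, inferInstance⟩
  | succ n ih =>
    intro M _ _ _ h
    obtain ⟨k, p, hp⟩ := Module.Finite.exists_fin' S M
    refine ⟨k, p, hp, ih _ ?_⟩
    have hS : p.shortComplexKer.ShortExact := LinearMap.shortExact_shortComplexKer hp
    exact (hS.hasProjectiveDimensionLT_X₃_iff n
      ((IsProjective.iff_projective (R := S) _).1 inferInstance)).1 h

theorem pd_of_fr {S : Type u} [CommRing S] (n : ℕ) :
    ∀ (M : Type u) [AddCommGroup M] [Module S M],
      FR S n M → HasProjectiveDimensionLT (ModuleCat.of S M) (n + 1) := by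
  induction n with
  | zero =>
    intro M _ _ h
    have := h.1
    exact projective_iff_hasProjectiveDimensionLT_one.1
      ((IsProjective.iff_projective (R := S) _).1 inferInstance)
  | succ n ih =>
    intro M _ _ h
    obtain ⟨k, p, hp, hk⟩ := h
    have hS : p.shortComplexKer.ShortExact := LinearMap.shortExact_shortComplexKer hp
    exact (hS.hasProjectiveDimensionLT_X₃_iff n
      ((IsProjective.iff_projective (R := S) _).1 inferInstance)).2 (ih _ hk)

theorem fr_finite {S : Type u} [CommRing S] (n : ℕ) (M : Type u) [AddCommGroup M] [Module S M]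
    (h : FR S n M) : Module.Finite S M := by
  cases n with
  | zero => exact h.2
  | succ n =>
    obtain ⟨k, p, hp, _⟩ := h
    exact Module.Finite.of_surjective p hp

/-- The trace lemma: a module with a finite free resolution has a number `c` (its Euler
characteristic) such that `tr (i g) = c a` whenever `g i = a`. -/
theorem trace_lemma {S : Type u} [CommRing S] [Nontrivial S] (n : ℕ) :
    ∀ (K : Type u) [AddCommGroup K] [Module S K], FR S n K →
      ∃ c : S, ∀ (m : ℕ) (g : (Fin m → S) →ₗ[S] K) (i : K →ₗ[S] (Fin m → S)) (a : S),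
        (∀ x, g (i x) = a • x) → c * a = LinearMap.trace S (Fin m → S) (i ∘ₗ g) := by
  induction n with
  | zero =>
    intro K _ _ h
    have := h.1
    have := h.2
    refine ⟨(Module.finrank S K : S), fun m g i a hgi => ?_⟩
    have h1 : g ∘ₗ i = a • LinearMap.id := by
      ext x
      simp [hgi]
    rw [← LinearMap.trace_comp_comm' i g, h1, map_smul, LinearMap.trace_id]
    simp [mul_comm]
  | succ n ih =>
    intro K _ _ h
    obtain ⟨k, p, hp, hk⟩ := h
    obtain ⟨c, hc⟩ := ih _ hk
    refine ⟨(k : S) - c, fun m g i a hgi => ?_⟩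
    obtain ⟨g', hg'⟩ := Module.projective_lifting_property p g hp
    have hg'' : ∀ x, p (g' x) = g x := fun x => by rw [← hg']; rfl
    let h0 : (Fin k → S) →ₗ[S] (Fin k → S) := a • LinearMap.id - g' ∘ₗ i ∘ₗ p
    have hmem : ∀ x, h0 x ∈ LinearMap.ker p := by
      intro x
      simp [h0, hg'', hgi]
    let h1 : (Fin k → S) →ₗ[S] LinearMap.ker p := h0.codRestrict _ hmem
    have key := hc k h1 (LinearMap.ker p).subtype a (by
      rintro ⟨x, hx⟩
      apply Subtype.ext
      have hx' : p x = 0 := hx
      simp [h1, h0, hx'])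
    have h2 : (LinearMap.ker p).subtype ∘ₗ h1 = h0 := by
      ext x
      simp [h1]
    rw [h2] at key
    have h3 : LinearMap.trace S (Fin k → S) h0 = k * a -
        LinearMap.trace S (Fin m → S) (i ∘ₗ g) := by
      simp only [h0, map_sub, map_smul, LinearMap.trace_id]
      rw [LinearMap.trace_comp_comm' (i ∘ₗ p) g', LinearMap.comp_assoc, hg']
      simp [mul_comm]
    rw [h3] at key
    linear_combination -key

/-- A non-zero ideal with a finite free resolution in a local ring is faithful. -/
theorem faithful_of_fr {S : Type u} [CommRing S] [IsLocalRing S] (I : Ideal S) (n : ℕ)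
    (h : FR S n I) (y : S) (hy : ∀ i ∈ I, y * i = 0) (hy0 : y ≠ 0) : I = ⊥ := by
  obtain ⟨c, hc⟩ := trace_lemma n I h
  have h1 : c * y = 0 := by
    have := hc 0 0 0 y (by
      rintro ⟨x, hx⟩
      apply Subtype.ext
      simp [hy x hx])
    simpa using this
  have h2 : ∀ i ∈ I, c * i = i := by
    intro i hi
    let e : (Fin 1 → S) ≃ₗ[S] S := LinearEquiv.funUnique (Fin 1) S S
    let g : (Fin 1 → S) →ₗ[S] I :=
      (LinearMap.toSpanSingleton S I ⟨i, hi⟩) ∘ₗ e.toLinearMap
    let ι : I →ₗ[S] (Fin 1 → S) := e.symm.toLinearMap ∘ₗ I.subtype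
    have := hc 1 g ι i (by
      rintro ⟨x, hx⟩
      apply Subtype.ext
      simp [g, ι, mul_comm])
    rw [this]
    have h3 : ι ∘ₗ g = i • LinearMap.id := by
      apply LinearMap.ext
      intro x
      funext j
      simp [g, ι, e, mul_comm, Subsingleton.elim j default]
    rw [h3, map_smul, LinearMap.trace_id]
    simp
  rcases IsLocalRing.isUnit_or_isUnit_of_add_one (a := c) (b := 1 - c) (by ring) with hu | hu
  · exact absurd (by simpa using (hu.mul_right_eq_zero).1 h1) hy0
  · rw [eq_bot_iff]
    intro i hi
    have : (1 - c) * i = 0 := by rw [sub_mul, one_mul, h2 i hi, sub_self]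
    exact (hu.mul_right_eq_zero).1 this

/-- Freeness in depth at most one. -/
theorem free_of_fr {R : Type u} [CommRing R] [IsNoetherianRing R] [IsLocalRing R] (z x : R)
    (hz : ∀ y, x * y ≠ z) (hm : ∀ r ∈ maximalIdeal R, ∃ y, x * y = z * r)
    (hx : x = 0 ∨ ∀ r : R, x * r = 0 → r = 0) (n : ℕ) :
    ∀ (M : Type u) [AddCommGroup M] [Module R M], FR R n M →
      (x = 0 ∨ ∀ w : M, x • w = 0 → w = 0) → Module.Free R M := by
  induction n with
  | zero => intro M _ _ h _; exact h.1
  | succ n ih =>
    intro M _ _ h hM
    obtain ⟨k, p, hp, hk⟩ := h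
    have hKfree : Module.Free R (LinearMap.ker p) := by
      refine ih _ hk ?_
      rcases hx with h0 | h0
      · exact Or.inl h0
      · refine Or.inr ?_
        rintro ⟨w, hw⟩ h1
        apply Subtype.ext
        funext j
        have h2 : x • w = 0 := congrArg Subtype.val h1
        have h3 := congrFun h2 j
        exact h0 _ (by simpa using h3)
    have hKfin : Module.Finite R (LinearMap.ker p) := inferInstance
    refine Module.free_of_lTensor_residueField_injective (LinearMap.ker p).subtype p hp
      (LinearMap.exact_subtype_ker_map p) ?_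
    rw [injective_iff_map_eq_zero]
    intro t ht
    obtain ⟨w, rfl⟩ := TensorProduct.mk_surjective R (LinearMap.ker p) (ResidueField R)
      Ideal.Quotient.mk_surjective t
    have h1 : (w : Fin k → R) ∈ (maximalIdeal R) • (⊤ : Submodule R (Fin k → R)) := by
      have h2 : (w : Fin k → R) ∈
          LinearMap.ker (TensorProduct.mk R (R ⧸ maximalIdeal R) (Fin k → R) 1) := by
        rw [LinearMap.mem_ker]
        exact ht
      rwa [LinearMap.ker_tensorProductMk] at h2
    have h3 : ∃ f : Fin k → R, x • f = z • (w : Fin k → R) := by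
      refine Submodule.smul_induction_on h1 ?_ ?_
      · intro r hr v _
        obtain ⟨y, hy⟩ := hm r hr
        exact ⟨y • v, by rw [smul_smul, hy, smul_smul]⟩
      · rintro v1 v2 ⟨f1, h1⟩ ⟨f2, h2⟩
        exact ⟨f1 + f2, by rw [smul_add, smul_add, h1, h2]⟩
    obtain ⟨f, hf⟩ := h3
    have h4 : ∃ f' : LinearMap.ker p, x • f' = z • w := by
      rcases hM with h0 | h0
      · refine ⟨0, ?_⟩
        apply Subtype.ext
        rw [h0, zero_smul] at hf
        simpa using hf
      · refine ⟨⟨f, ?_⟩, Subtype.ext hf⟩
        apply h0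
        rw [← map_smul, hf, map_smul, w.2, smul_zero]
    obtain ⟨f', hf'⟩ := h4
    -- `w ∈ m K`
    have h5 : w ∈ (maximalIdeal R) • (⊤ : Submodule R (LinearMap.ker p)) := by
      let b := Module.Free.chooseBasis R (LinearMap.ker p)
      have h6 : ∀ j, b.repr w j ∈ maximalIdeal R := by
        intro j
        rw [mem_maximalIdeal]
        intro hu
        obtain ⟨u, hu⟩ := hu
        have h7 : x * b.repr f' j = z * b.repr w j := by
          have := congrArg (fun v => b.repr v j) hf'
          simpa using this
        apply hz (b.repr f' j * (u⁻¹ : Rˣ))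
        rw [← mul_assoc, h7, ← hu, mul_assoc, Units.mul_inv, mul_one]
      rw [← b.sum_repr w]
      exact Submodule.sum_mem _ fun j _ => Submodule.smul_mem_smul (h6 j) trivial
    have h8 : w ∈ LinearMap.ker (TensorProduct.mk R (R ⧸ maximalIdeal R) (LinearMap.ker p) 1) := by
      rwa [LinearMap.ker_tensorProductMk]
    exact h8

end Pool.Agent.H661R3.VN
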