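import Mathlib
import Pool.Agent.H661R3.VN.Basic

set_option autoImplicit false

open CategoryTheory IsLocalRing Function

namespace Pool.Agent.H661R3.VN

universe u

/-- Reduction of finite free resolutions modulo a regular element. -/
theorem fr_red {S : Type u} [CommRing S] (a : S) (ha : ∀ r : S, a * r = 0 → r = 0) (n : ℕ) :
    ∀ (M M' : Type u) [AddCommGroup M] [Module S M] [AddCommGroup M']
      [Module (S ⧸ Ideal.span {a}) M']
      (q : M →ₛₗ[Ideal.Quotient.mk (Ideal.span {a})] M'), Surjective q →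
      (∀ m, q m = 0 → ∃ m', m = a • m') → (∀ m : M, a • m = 0 → m = 0) →
      FR S n M → FR (S ⧸ Ideal.span {a}) n M' := by
  induction n with
  | zero =>
    intro M M' _ _ _ _ q hq hker hM h
    obtain ⟨h1, h2⟩ := h
    let b := Module.Free.chooseBasis S M
    have hli : LinearIndependent (S ⧸ Ideal.span {a}) (fun j => q (b j)) := by
      rw [Fintype.linearIndependent_iff]
      intro g hg j
      choose g' hg' using fun j => Ideal.Quotient.mk_surjective (I := Ideal.span {a}) (g j)
      have h3 : q (∑ j, g' j • b j) = 0 := by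
        rw [map_sum]
        simpa [LinearMap.map_smulₛₗ, hg'] using hg
      obtain ⟨m', hm'⟩ := hker _ h3
      have h4 : g' j = a * b.repr m' j := by
        have := congrArg (fun v => b.repr v j) hm'
        simpa [Finsupp.single_apply] using this
      rw [← hg', h4, Ideal.Quotient.eq_zero_iff_mem]
      exact Ideal.mem_span_singleton'.2 ⟨_, mul_comm _ _⟩
    have hsp : ⊤ ≤ Submodule.span (S ⧸ Ideal.span {a}) (Set.range fun j => q (b j)) := by
      intro x _
      obtain ⟨m, rfl⟩ := hq x
      rw [← b.sum_repr m, map_sum]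
      refine Submodule.sum_mem _ fun j _ => ?_
      rw [LinearMap.map_smulₛₗ]
      exact Submodule.smul_mem _ _ (Submodule.subset_span ⟨j, rfl⟩)
    let b' := Module.Basis.mk hli hsp
    exact ⟨Module.Free.of_basis b', Module.Finite.of_basis b'⟩
  | succ n ih =>
    intro M M' _ _ _ _ q hq hker hM h
    obtain ⟨k, p, hp, hk⟩ := h
    let p' : (Fin k → S ⧸ Ideal.span {a}) →ₗ[S ⧸ Ideal.span {a}] M' :=
      Fintype.linearCombination (S ⧸ Ideal.span {a}) (fun j => q (p (Pi.single j 1)))
    have hp' : ∀ v : Fin k → S, p' (fun j => Ideal.Quotient.mk _ (v j)) = q (p v) := by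
      intro v
      rw [LinearMap.pi_apply_eq_sum_univ p v, map_sum]
      simp only [p', Fintype.linearCombination_apply, LinearMap.map_smulₛₗ]
      refine Finset.sum_congr rfl fun j _ => ?_
      congr 3
      ext i
      simp [Pi.single_apply, eq_comm]
    refine ⟨k, p', ?_, ?_⟩
    · intro x
      obtain ⟨m, rfl⟩ := hq x
      obtain ⟨v, rfl⟩ := hp m
      exact ⟨_, hp' v⟩
    · let κ : LinearMap.ker p →ₛₗ[Ideal.Quotient.mk (Ideal.span {a})] LinearMap.ker p' :=
        { toFun := fun v => ⟨fun j => Ideal.Quotient.mk _ ((v : Fin k → S) j), by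
            rw [LinearMap.mem_ker, hp', v.2, map_zero]⟩
          map_add' := fun v w => by
            apply Subtype.ext
            funext j
            simp
          map_smul' := fun r v => by
            apply Subtype.ext
            funext j
            simp }
      refine ih _ _ κ ?_ ?_ ?_ hk
      · rintro ⟨w, hw⟩
        choose v hv using fun j => Ideal.Quotient.mk_surjective (I := Ideal.span {a}) (w j)
        have hw' : w = fun j => Ideal.Quotient.mk (Ideal.span {a}) (v j) := by
          funext j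
          exact (hv j).symm
        have h1 : q (p v) = 0 := by
          rw [← hp', ← hw']
          exact hw
        obtain ⟨m', hm'⟩ := hker _ h1
        obtain ⟨y, rfl⟩ := hp m'
        refine ⟨⟨v - a • y, by rw [LinearMap.mem_ker, map_sub, map_smul, hm', sub_self]⟩, ?_⟩
        apply Subtype.ext
        funext j
        have h2 : Ideal.Quotient.mk (Ideal.span {a}) a = 0 :=
          Ideal.Quotient.eq_zero_iff_mem.2 (Ideal.mem_span_singleton_self a)
        simp [κ, h2, hv]
      · rintro ⟨v, hv⟩ hv0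
        have h1 : ∀ j, ∃ y, a * y = v j := by
          intro j
          have h2 := congrFun (congrArg Subtype.val hv0) j
          have h3 : v j ∈ Ideal.span {a} := Ideal.Quotient.eq_zero_iff_mem.1 h2
          obtain ⟨y, hy⟩ := Ideal.mem_span_singleton'.1 h3
          exact ⟨y, by rw [mul_comm, hy]⟩
        choose y hy using h1
        have hy' : a • y = v := by
          funext j
          exact hy j
        refine ⟨⟨y, ?_⟩, Subtype.ext hy'.symm⟩
        rw [LinearMap.mem_ker]
        apply hM
        rw [← map_smul, hy']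
        exact hv
      · rintro ⟨v, hv⟩ h1
        apply Subtype.ext
        funext j
        exact ha _ (congrFun (congrArg Subtype.val h1) j)

/-- A regular element in a coset of `I ^ 2`. -/
theorem exists_regular {S : Type u} [CommRing S] [IsNoetherianRing S] [IsLocalRing S]
    (I : Ideal S) (hI : I ≠ ⊤) (hf : ∀ y : S, (∀ i ∈ I, y * i = 0) → y = 0) (a : S) :
    ∃ b ∈ I ^ 2, ∀ r : S, (a + b) * r = 0 → r = 0 := by
  classical
  have hfin : (associatedPrimes S S).Finite := associatedPrimes.finite S S
  have hbU := biUnion_associatedPrimes_eq_compl_nonZeroDivisors S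
  -- a regular element of `I`
  obtain ⟨w, hwI, hw⟩ : ∃ w ∈ I, w ∈ nonZeroDivisors S := by
    by_contra hcon
    push Not at hcon
    have hd : Disjoint (I : Set S) (nonZeroDivisors S) := by
      rw [Set.disjoint_left]
      exact fun w hw => hcon w hw
    have h1 := Ideal.bot_lt_annihilator_of_disjoint_nonZeroDivisors hd
    obtain ⟨y, hy, hy0⟩ := SetLike.exists_of_lt h1
    apply hy0
    rw [Ideal.mem_bot]
    apply hf
    intro i hi
    have := Module.mem_annihilator.1 hy ⟨i, hi⟩
    simpa using congrArg Subtype.val this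
  have hwm : w ∈ maximalIdeal S := IsLocalRing.le_maximalIdeal hI hwI
  by_contra hcon
  push Not at hcon
  have hex : ∀ m : ℕ, ∃ Q : associatedPrimes S S, a + w ^ (m + 2) ∈ Q.1 := by
    intro m
    obtain ⟨r, hr, hr0⟩ := hcon (w ^ (m + 2))
      (Ideal.pow_le_pow_right (by omega) (Ideal.pow_mem_pow hwI (m + 2)))
    have h1 : a + w ^ (m + 2) ∈ ((nonZeroDivisors S : Set S))ᶜ := by
      intro h2
      exact hr0 ((mem_nonZeroDivisors_iff.1 h2).1 r hr)
    rw [← hbU] at h1
    simp only [Set.mem_iUnion] at h1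
    obtain ⟨Q, hQ, h2⟩ := h1
    exact ⟨⟨Q, hQ⟩, h2⟩
  choose Q hQ using hex
  have : Finite (associatedPrimes S S) := hfin
  obtain ⟨m, m', hmm, heq⟩ := Finite.exists_ne_map_eq_of_infinite Q
  wlog hlt : m < m' generalizing m m'
  · exact this m' m (Ne.symm hmm) heq.symm (by omega)
  have hp : (Q m).1.IsPrime := (Q m).2.1
  have h1 : w ^ (m + 2) * (1 - w ^ (m' - m)) ∈ (Q m).1 := by
    have h2 := (Q m).1.sub_mem (hQ m) (heq ▸ hQ m')
    have h3 : a + w ^ (m + 2) - (a + w ^ (m' + 2)) = w ^ (m + 2) * (1 - w ^ (m' - m)) := by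
      have : w ^ (m' + 2) = w ^ (m + 2) * w ^ (m' - m) := by
        rw [← pow_add]
        congr 1
        omega
      rw [this]
      ring
    rwa [h3] at h2
  have h4 : IsUnit (1 - w ^ (m' - m)) := by
    have h5 : w ^ (m' - m) ∈ maximalIdeal S := Ideal.pow_mem_of_mem _ hwm _ (by omega)
    rcases IsLocalRing.isUnit_or_isUnit_of_add_one (a := w ^ (m' - m))
      (b := 1 - w ^ (m' - m)) (by ring) with h6 | h6
    · exact absurd h6 ((mem_maximalIdeal _).1 h5)
    · exact h6
  rcases hp.mem_or_mem h1 with h2 | h2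
  · have h3 := hp.mem_of_pow_mem _ h2
    have h5 : w ∈ ⋃ p ∈ associatedPrimes S S, (p : Set S) := by
      simp only [Set.mem_iUnion]
      exact ⟨(Q m).1, (Q m).2, h3⟩
    rw [hbU] at h5
    exact h5 hw
  · exact hp.ne_top (Ideal.eq_top_of_isUnit_mem _ h2 h4)

open scoped TensorProduct in
/-- A faithful proper ideal has a non-zero homomorphism to the quotient. -/
theorem exists_hom {S : Type u} [CommRing S] [IsNoetherianRing S]
    (I : Ideal S) (hI : I ≠ ⊤) (hf : ∀ y : S, (∀ i ∈ I, y * i = 0) → y = 0) :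
    ∃ θ : I →ₗ[S] (S ⧸ I), θ ≠ 0 := by
  classical
  have : Nontrivial (S ⧸ I) := Ideal.Quotient.nontrivial_iff.2 hI
  obtain ⟨Q, hQ⟩ := associatedPrimes.nonempty S (S ⧸ I)
  rw [AssociatedPrimes.mem_iff, isAssociatedPrime_iff] at hQ
  obtain ⟨hp, x, hx⟩ := hQ
  have hx' : ∀ r : S, r ∈ Q ↔ r • x = 0 := by
    intro r
    rw [hx, Submodule.mem_colon_singleton, Submodule.mem_bot]
  -- the residue field at `Q`
  have hsupp : (⟨Q, hp⟩ : PrimeSpectrum S) ∈ Module.support S I := by
    rw [Module.mem_support_iff_of_finite]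
    intro y hy
    have h0 : y = 0 := by
      apply hf
      intro i hi
      have := Module.mem_annihilator.1 hy ⟨i, hi⟩
      simpa using congrArg Subtype.val this
    rw [h0]
    exact Q.zero_mem
  rw [Module.mem_support_iff_nontrivial_residueField_tensorProduct] at hsupp
  simp only at hsupp
  obtain ⟨v, hv⟩ := exists_ne (0 : Q.ResidueField ⊗[S] I)
  have hlam : ∃ l : Module.Dual Q.ResidueField (Q.ResidueField ⊗[S] I), l v ≠ 0 := by
    by_contra hcon
    push Not at hcon
    exact hv ((Module.forall_dual_apply_eq_zero_iff Q.ResidueField v).1 hcon)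
  obtain ⟨l, hl⟩ := hlam
  let μ : I →ₗ[S] Q.ResidueField :=
    (l.restrictScalars S) ∘ₗ (TensorProduct.mk S Q.ResidueField I 1)
  have hμ : ∃ i, μ i ≠ 0 := by
    by_contra hcon
    push Not at hcon
    apply hl
    have h0 : ∀ t, l t = 0 := by
      intro t
      induction t using TensorProduct.induction_on with
      | zero => exact map_zero l
      | tmul c i =>
        have h1 : c ⊗ₜ[S] i = c • ((1 : Q.ResidueField) ⊗ₜ[S] i) := by
          rw [TensorProduct.smul_tmul', smul_eq_mul, mul_one]
        rw [h1, map_smul]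
        have h2 : l ((1 : Q.ResidueField) ⊗ₜ[S] i) = 0 := hcon i
        rw [h2, smul_zero]
      | add t1 t2 h1 h2 => rw [map_add, h1, h2, add_zero]
    exact h0 v
  obtain ⟨i0, hi0⟩ := hμ
  obtain ⟨t, ht⟩ := (Module.Finite.fg_top : (⊤ : Submodule S I).FG)
  obtain ⟨b, hb⟩ := IsLocalization.exist_integer_multiples_of_finset
    (nonZeroDivisors (S ⧸ Q)) (t.image μ)
  obtain ⟨b', hb'⟩ := Ideal.Quotient.mk_surjective (b : S ⧸ Q)
  let alg : (S ⧸ Q) →ₗ[S] Q.ResidueField :=
    (IsScalarTower.toAlgHom S (S ⧸ Q) Q.ResidueField).toLinearMap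
  have halg : ∀ d, alg d = algebraMap (S ⧸ Q) Q.ResidueField d := fun d => rfl
  have hinj : Injective alg := by
    intro d e hde
    exact IsFractionRing.injective (S ⧸ Q) Q.ResidueField hde
  have hbs : ∀ y : Q.ResidueField, b' • y = (b : S ⧸ Q) • y := by
    intro y
    rw [← hb']
    exact (algebraMap_smul (S ⧸ Q) b' y).symm
  have hrange : ∀ i : I, (b' • μ) i ∈ LinearMap.range alg := by
    intro i
    have hi : i ∈ Submodule.span S (t : Set I) := by rw [ht]; trivial
    induction hi using Submodule.span_induction with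
    | mem y hy =>
      obtain ⟨d, hd⟩ := hb (μ y) (Finset.mem_image_of_mem _ hy)
      exact ⟨d, by rw [halg, hd, LinearMap.smul_apply, hbs]⟩
    | zero => rw [map_zero]; exact Submodule.zero_mem _
    | add y z _ _ h1 h2 => rw [map_add]; exact Submodule.add_mem _ h1 h2
    | smul r y _ h1 => rw [map_smul]; exact Submodule.smul_mem _ _ h1
  let ν : I →ₗ[S] (S ⧸ Q) :=
    (LinearEquiv.ofInjective alg hinj).symm.toLinearMap ∘ₗ
      ((b' • μ).codRestrict (LinearMap.range alg) hrange)
  have hν : ∀ i, alg (ν i) = b' • μ i := by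
    intro i
    have := LinearEquiv.apply_symm_apply (LinearEquiv.ofInjective alg hinj)
      ⟨(b' • μ) i, hrange i⟩
    exact congrArg Subtype.val this
  have hle : Q ≤ LinearMap.ker (LinearMap.toSpanSingleton S (S ⧸ I) x) := by
    intro r hr
    rw [LinearMap.mem_ker, LinearMap.toSpanSingleton_apply]
    exact (hx' r).1 hr
  let j : (S ⧸ Q) →ₗ[S] (S ⧸ I) := Submodule.liftQ Q (LinearMap.toSpanSingleton S (S ⧸ I) x) hle
  have hj : ∀ d, j d = 0 → d = 0 := by
    intro d hd
    obtain ⟨r, rfl⟩ := Ideal.Quotient.mk_surjective d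
    have h1 : r • x = 0 := hd
    exact Ideal.Quotient.eq_zero_iff_mem.2 ((hx' r).2 h1)
  refine ⟨j ∘ₗ ν, fun h => hi0 ?_⟩
  have h1 : j (ν i0) = 0 := by
    have := LinearMap.congr_fun h i0
    simpa using this
  have h2 := hj _ h1
  have h3 := hν i0
  rw [h2, map_zero, hbs, Algebra.smul_def] at h3
  have h4 : algebraMap (S ⧸ Q) Q.ResidueField (b : S ⧸ Q) ≠ 0 := by
    intro h5
    have h6 : (b : S ⧸ Q) = 0 := hinj (by rw [halg, h5, map_zero])
    exact nonZeroDivisors.ne_zero b.2 h6
  exact (mul_eq_zero.1 h3.symm).resolve_left h4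

end Pool.Agent.H661R3.VN
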