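import Mathlib
import Pool.Agent.H661R3.VN.Reduce

set_option autoImplicit false

open CategoryTheory IsLocalRing Function RingTheory.Sequence

namespace Pool.Agent.H661R3.VN

universe u

theorem hom_sq {S : Type u} [CommRing S] (I : Ideal S) (θ : I →ₗ[S] (S ⧸ I)) (b : S)
    (hb : b ∈ I ^ 2) (hbI : b ∈ I) : θ ⟨b, hbI⟩ = 0 := by
  have key : ∀ b ∈ I * I, ∀ hbI : b ∈ I, θ ⟨b, hbI⟩ = 0 := by
    intro b hb
    induction hb using Submodule.mul_induction_on' with
    | mem_mul_mem u hu v hv =>
      intro hbI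
      have h1 : (⟨u * v, hbI⟩ : I) = u • ⟨v, hv⟩ := rfl
      rw [h1, map_smul]
      obtain ⟨y, hy⟩ := Ideal.Quotient.mk_surjective (θ ⟨v, hv⟩)
      rw [← hy]
      have h2 : u • (Ideal.Quotient.mk I y) = Ideal.Quotient.mk I (u * y) := rfl
      rw [h2]
      exact Ideal.Quotient.eq_zero_iff_mem.2 (I.mul_mem_right _ hu)
    | add u hu v hv h1 h2 =>
      intro hbI
      have hu' : u ∈ I := Ideal.mul_le_right hu
      have hv' : v ∈ I := Ideal.mul_le_right hv
      have h3 : (⟨u + v, hbI⟩ : I) = ⟨u, hu'⟩ + ⟨v, hv'⟩ := rfl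
      rw [h3, map_add, h1 hu', h2 hv', add_zero]
  exact key b (by rwa [← pow_two]) hbI

/-- The reduction `I → I / (a)`. -/
noncomputable def rho {S : Type u} [CommRing S] (I : Ideal S) (a : S) :
    I →ₗ[S] (I.map (Ideal.Quotient.mk (Ideal.span {a}))) where
  toFun i := ⟨Ideal.Quotient.mk _ (i : S), Ideal.mem_map_of_mem _ i.2⟩
  map_add' i j := by apply Subtype.ext; simp
  map_smul' r i := by apply Subtype.ext; simp [Algebra.smul_def]

theorem rho_surj {S : Type u} [CommRing S] (I : Ideal S) (a : S) : Surjective (rho I a) := by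
  rintro ⟨x, hx⟩
  obtain ⟨i, hi, rfl⟩ := (Ideal.mem_map_iff_of_surjective _ Ideal.Quotient.mk_surjective).1 hx
  exact ⟨⟨i, hi⟩, rfl⟩

theorem rho_ker {S : Type u} [CommRing S] (I : Ideal S) (a : S) (haI : a ∈ I) (i : I)
    (h : rho I a i = 0) : ∃ c : S, i = c • (⟨a, haI⟩ : I) := by
  have h1 : (i : S) ∈ Ideal.span {a} :=
    Ideal.Quotient.eq_zero_iff_mem.1 (congrArg Subtype.val h)
  obtain ⟨c, hc⟩ := Ideal.mem_span_singleton'.1 h1
  exact ⟨c, Subtype.ext (by simp [hc])⟩

theorem rho_self {S : Type u} [CommRing S] (I : Ideal S) (a : S) (haI : a ∈ I) :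
    rho I a ⟨a, haI⟩ = 0 := by
  apply Subtype.ext
  exact Ideal.Quotient.eq_zero_iff_mem.2 (Ideal.mem_span_singleton_self a)

/-- Descend a linear map along `rho`. -/
noncomputable def desc {S : Type u} [CommRing S] (I : Ideal S) (a : S) {M : Type u}
    [AddCommGroup M] [Module S M] [Module (S ⧸ Ideal.span {a}) M]
    [IsScalarTower S (S ⧸ Ideal.span {a}) M] (f : I →ₗ[S] M)
    (hf : LinearMap.ker (rho I a) ≤ LinearMap.ker f) :
    (I.map (Ideal.Quotient.mk (Ideal.span {a}))) →ₗ[S ⧸ Ideal.span {a}] M :=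
  LinearMap.extendScalarsOfSurjective (R := S) (S := S ⧸ Ideal.span {a})
    Ideal.Quotient.mk_surjective
    ((Submodule.liftQ (LinearMap.ker (rho I a)) f hf) ∘ₗ
      ((rho I a).quotKerEquivOfSurjective (rho_surj I a)).symm.toLinearMap)

theorem desc_rho {S : Type u} [CommRing S] (I : Ideal S) (a : S) {M : Type u}
    [AddCommGroup M] [Module S M] [Module (S ⧸ Ideal.span {a}) M]
    [IsScalarTower S (S ⧸ Ideal.span {a}) M] (f : I →ₗ[S] M)
    (hf : LinearMap.ker (rho I a) ≤ LinearMap.ker f) (i : I) :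
    desc I a f hf (rho I a i) = f i := by
  have h1 : ((rho I a).quotKerEquivOfSurjective (rho_surj I a)).symm (rho I a i) =
      Submodule.Quotient.mk i := by
    rw [LinearEquiv.symm_apply_eq]
    rfl
  change (Submodule.liftQ (LinearMap.ker (rho I a)) f hf)
    (((rho I a).quotKerEquivOfSurjective (rho_surj I a)).symm (rho I a i)) = f i
  rw [h1]
  rfl

theorem ker_rho_le {S : Type u} [CommRing S] (I : Ideal S) (a : S) (haI : a ∈ I) {M : Type u}
    [AddCommGroup M] [Module S M] (f : I →ₗ[S] M) (hf : f ⟨a, haI⟩ = 0) :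
    LinearMap.ker (rho I a) ≤ LinearMap.ker f := by
  intro i hi
  obtain ⟨c, rfl⟩ := rho_ker I a haI i hi
  rw [LinearMap.mem_ker, map_smul, hf, smul_zero]

/-- Finite projective dimension passes to `I / (a)` over `S / (a)` when the class of `a`
generates a free summand of `I / I ^ 2`. -/
theorem pd_step {S : Type u} [CommRing S] (I : Ideal S) (a : S) (haI : a ∈ I)
    (ha : ∀ r : S, a * r = 0 → r = 0) (ψ : I →ₗ[S] (S ⧸ I)) (hψ : ψ ⟨a, haI⟩ = 1)
    (n : ℕ) (h : FR S n I) :
    HasProjectiveDimensionLT (ModuleCat.of (S ⧸ Ideal.span {a})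
      (I.map (Ideal.Quotient.mk (Ideal.span {a})))) (n + 1) := by
  let J : Ideal S := Ideal.span {a}
  let M := I ⧸ (J • (⊤ : Submodule S I))
  let q : I →ₛₗ[Ideal.Quotient.mk (Ideal.span {a})] M :=
    { toFun := fun i => Submodule.Quotient.mk i
      map_add' := fun i j => rfl
      map_smul' := fun r i => rfl }
  have hmem : ∀ i : I, i ∈ (J • (⊤ : Submodule S I)) ↔ ∃ i', i = a • i' := by
    intro i
    rw [Submodule.ideal_span_singleton_smul, Submodule.mem_smul_pointwise_iff_exists]
    constructor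
    · rintro ⟨b, _, rfl⟩
      exact ⟨b, rfl⟩
    · rintro ⟨b, rfl⟩
      exact ⟨b, trivial, rfl⟩
  have hFR : FR (S ⧸ Ideal.span {a}) n M := by
    refine fr_red a ha n I M q (Submodule.Quotient.mk_surjective _) ?_ ?_ h
    · intro m hm
      exact (hmem m).1 ((Submodule.Quotient.mk_eq_zero _).1 hm)
    · intro m hm
      apply Subtype.ext
      exact ha _ (congrArg Subtype.val hm)
  have hpd := pd_of_fr n M hFR
  -- the projection
  let pr0 : M →ₗ[S] (I.map (Ideal.Quotient.mk (Ideal.span {a}))) :=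
    Submodule.liftQ _ (rho I a) (by
      intro i hi
      obtain ⟨i', rfl⟩ := (hmem i).1 hi
      rw [LinearMap.mem_ker, map_smul]
      apply Subtype.ext
      have h2 : Ideal.Quotient.mk (Ideal.span {a}) a = 0 :=
        Ideal.Quotient.eq_zero_iff_mem.2 (Ideal.mem_span_singleton_self a)
      simp [Algebra.smul_def, h2])
  let pr : M →ₗ[S ⧸ Ideal.span {a}] (I.map (Ideal.Quotient.mk (Ideal.span {a}))) :=
    LinearMap.extendScalarsOfSurjective (R := S) (S := S ⧸ Ideal.span {a})
      Ideal.Quotient.mk_surjective pr0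
  -- the section
  let lam : (S ⧸ I) →ₗ[S] M :=
    Submodule.liftQ I (LinearMap.toSpanSingleton S M (Submodule.Quotient.mk ⟨a, haI⟩)) (by
      intro r hr
      rw [LinearMap.mem_ker, LinearMap.toSpanSingleton_apply, ← Submodule.Quotient.mk_smul,
        Submodule.Quotient.mk_eq_zero, hmem]
      exact ⟨⟨r, hr⟩, Subtype.ext (mul_comm _ _)⟩)
  let τ : I →ₗ[S] M := (Submodule.mkQ _) - lam ∘ₗ ψ
  have hτ : τ ⟨a, haI⟩ = 0 := by
    have h1 : lam 1 = Submodule.Quotient.mk ⟨a, haI⟩ := by
      have : lam (Submodule.Quotient.mk 1) = (1 : S) • Submodule.Quotient.mk ⟨a, haI⟩ := rfl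
      rw [one_smul] at this
      exact this
    simp only [τ, LinearMap.sub_apply, LinearMap.comp_apply, hψ, h1]
    exact sub_self _
  let σ : (I.map (Ideal.Quotient.mk (Ideal.span {a}))) →ₗ[S ⧸ Ideal.span {a}] M :=
    desc I a τ (ker_rho_le I a haI τ hτ)
  have hprσ : pr ∘ₗ σ = LinearMap.id := by
    apply LinearMap.ext
    intro x
    obtain ⟨i, rfl⟩ := rho_surj I a x
    have h1 : σ (rho I a i) = τ i := desc_rho I a τ _ i
    rw [LinearMap.comp_apply, h1]
    obtain ⟨r, hr⟩ := Ideal.Quotient.mk_surjective (ψ i)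
    have h2 : lam (ψ i) = r • Submodule.Quotient.mk ⟨a, haI⟩ := by
      rw [← hr]
      rfl
    have h3 : τ i = Submodule.Quotient.mk (i - r • ⟨a, haI⟩) := by
      simp only [τ, LinearMap.sub_apply, LinearMap.comp_apply, h2]
      rfl
    rw [h3]
    change rho I a (i - r • ⟨a, haI⟩) = rho I a i
    rw [map_sub, map_smul, rho_self, smul_zero, sub_zero]
  have hret : Retract (ModuleCat.of (S ⧸ Ideal.span {a})
      (I.map (Ideal.Quotient.mk (Ideal.span {a})))) (ModuleCat.of (S ⧸ Ideal.span {a}) M) :=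
    { i := ModuleCat.ofHom σ
      r := ModuleCat.ofHom pr
      retract := by
        rw [← ModuleCat.ofHom_comp, hprσ]
        rfl }
  exact hret.hasProjectiveDimensionLT (n + 1)

/-- The induction: an ideal of finite projective dimension in a Noetherian local ring such
that `Hom (I, S / I)` has a basis which is dual to elements of `I` is generated by a regular
sequence. -/
theorem regseq (s : ℕ) : ∀ (S : Type u) [CommRing S] [IsNoetherianRing S] [IsLocalRing S]
    (I : Ideal S), I ≠ ⊤ → (∃ n : ℕ, HasProjectiveDimensionLT (ModuleCat.of S I) n) →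
    ∀ (a : Fin s → I) (ψ : Fin s → (I →ₗ[S] (S ⧸ I))),
      (∀ i j, ψ i (a j) = if i = j then 1 else 0) →
      (∀ θ : I →ₗ[S] (S ⧸ I), ∃ c : Fin s → S, θ = ∑ i, c i • ψ i) →
      ∃ rs : List S, Ideal.ofList rs = I ∧ IsWeaklyRegular S rs := by
  induction s with
  | zero =>
    intro S _ _ _ I hI hpd a ψ hδ hspan
    obtain ⟨n, hn⟩ := hpd
    have hfr : FR S n I :=
      fr_of_pd n I (hasProjectiveDimensionLT_of_ge _ n (n + 1) (Nat.le_succ n))
    by_cases hbot : I = ⊥
    · exact ⟨[], by rw [Ideal.ofList_nil, hbot], IsWeaklyRegular.nil S S⟩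
    · exfalso
      have hf : ∀ y : S, (∀ i ∈ I, y * i = 0) → y = 0 := by
        intro y hy
        by_contra hy0
        exact hbot (faithful_of_fr I n hfr y hy hy0)
      obtain ⟨θ, hθ⟩ := exists_hom I hI hf
      obtain ⟨c, hc⟩ := hspan θ
      exact hθ (by rw [hc]; simp)
  | succ s ih =>
    intro S _ _ _ I hI hpd a ψ hδ hspan
    obtain ⟨n, hn⟩ := hpd
    have hfr : FR S n I :=
      fr_of_pd n I (hasProjectiveDimensionLT_of_ge _ n (n + 1) (Nat.le_succ n))
    have hbot : I ≠ ⊥ := by
      intro hbot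
      have h1 : a 0 = 0 := by
        exact Subtype.ext ((Submodule.mem_bot S).1 (hbot.le (a 0).2))
      have h2 := hδ 0 0
      rw [h1, map_zero, if_pos rfl] at h2
      have : Nontrivial (S ⧸ I) := Ideal.Quotient.nontrivial_iff.2 hI
      exact zero_ne_one h2
    have hf : ∀ y : S, (∀ i ∈ I, y * i = 0) → y = 0 := by
      intro y hy
      by_contra hy0
      exact hbot (faithful_of_fr I n hfr y hy hy0)
    obtain ⟨b, hb, hreg⟩ := exists_regular I hI hf (a 0 : S)
    have hbI : b ∈ I := Ideal.pow_le_self two_ne_zero hb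
    obtain ⟨x, hx⟩ : ∃ x : S, x = (a 0 : S) + b := ⟨_, rfl⟩
    rw [← hx] at hreg
    have hxI : x ∈ I := by rw [hx]; exact I.add_mem (a 0).2 hbI
    have hψx : ∀ i, ψ i ⟨x, hxI⟩ = if i = 0 then 1 else 0 := by
      intro i
      have h1 : (⟨x, hxI⟩ : I) = a 0 + ⟨b, hbI⟩ := Subtype.ext hx
      rw [h1, map_add, hom_sq I (ψ i) b hb hbI, add_zero, hδ]
    -- the quotient ring
    have hmapmem : ∀ r : S, Ideal.Quotient.mk (Ideal.span {x}) r ∈
        I.map (Ideal.Quotient.mk (Ideal.span {x})) → r ∈ I := by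
      intro r hr
      obtain ⟨i, hi, hir⟩ :=
        (Ideal.mem_map_iff_of_surjective _ Ideal.Quotient.mk_surjective).1 hr
      have h1 : i - r ∈ Ideal.span {x} := Ideal.Quotient.eq.1 hir
      have h2 : i - r ∈ I := (Ideal.span_singleton_le_iff_mem _).2 hxI h1
      have h3 : r = i - (i - r) := by ring
      rw [h3]
      exact I.sub_mem hi h2
    have hI' : I.map (Ideal.Quotient.mk (Ideal.span {x})) ≠ ⊤ := by
      intro htop
      apply hI
      rw [Ideal.eq_top_iff_one]
      apply hmapmem
      rw [htop]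
      trivial
    have hnt : Nontrivial (S ⧸ Ideal.span {x}) := by
      rw [Ideal.Quotient.nontrivial_iff]
      intro h
      apply hI
      rw [eq_top_iff, ← h]
      exact (Ideal.span_singleton_le_iff_mem _).2 hxI
    have hloc : IsLocalRing (S ⧸ Ideal.span {x}) :=
      IsLocalRing.of_surjective' (Ideal.Quotient.mk _) Ideal.Quotient.mk_surjective
    have hpd' := pd_step I x hxI hreg (ψ 0) (by rw [hψx, if_pos rfl]) n hfr
    -- comparison of the quotients
    let Q := (S ⧸ Ideal.span {x}) ⧸ I.map (Ideal.Quotient.mk (Ideal.span {x}))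
    let E0 : (S ⧸ I) →ₗ[S] Q :=
      Submodule.liftQ I (Algebra.linearMap S Q) (by
        intro r hr
        rw [LinearMap.mem_ker, Algebra.linearMap_apply]
        exact Ideal.Quotient.eq_zero_iff_mem.2 (Ideal.mem_map_of_mem _ hr))
    have hE0 : ∀ r : S, E0 (Ideal.Quotient.mk I r) = Ideal.Quotient.mk _
        (Ideal.Quotient.mk (Ideal.span {x}) r) := fun r => rfl
    have hE0inj : Injective E0 := by
      rw [injective_iff_map_eq_zero]
      intro y hy
      obtain ⟨r, rfl⟩ := Ideal.Quotient.mk_surjective y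
      rw [hE0] at hy
      exact Ideal.Quotient.eq_zero_iff_mem.2 (hmapmem r (Ideal.Quotient.eq_zero_iff_mem.1 hy))
    have hE0surj : Surjective E0 := by
      intro y
      obtain ⟨y, rfl⟩ := Ideal.Quotient.mk_surjective y
      obtain ⟨r, rfl⟩ := Ideal.Quotient.mk_surjective y
      exact ⟨Ideal.Quotient.mk I r, rfl⟩
    let E : (S ⧸ I) ≃ₗ[S] Q := LinearEquiv.ofBijective E0 ⟨hE0inj, hE0surj⟩
    have hE1 : E 1 = 1 := rfl
    have hkill : ∀ i : Fin s, (E.toLinearMap ∘ₗ ψ i.succ) ⟨x, hxI⟩ = 0 := by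
      intro i
      rw [LinearMap.comp_apply, hψx, if_neg (Fin.succ_ne_zero i), map_zero]
    have IH := ih (S ⧸ Ideal.span {x}) (I.map (Ideal.Quotient.mk (Ideal.span {x}))) hI'
      ⟨n + 1, hpd'⟩ (fun j => rho I x (a j.succ))
      (fun i => desc I x (E.toLinearMap ∘ₗ ψ i.succ)
        (ker_rho_le I x hxI _ (hkill i))) (by
          intro i j
          rw [desc_rho, LinearMap.comp_apply, hδ]
          by_cases hij : i = j
          · rw [if_pos hij, if_pos (by rw [hij])]
            exact hE1
          · rw [if_neg hij, if_neg (fun h => hij (Fin.succ_injective _ h))]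
            exact map_zero _) (by
          intro θ
          let θ0 : I →ₗ[S] (S ⧸ I) :=
            E.symm.toLinearMap ∘ₗ (θ.restrictScalars S) ∘ₗ rho I x
          obtain ⟨c, hc⟩ := hspan θ0
          have hθx : θ0 ⟨x, hxI⟩ = 0 := by
            change E.symm (θ (rho I x ⟨x, hxI⟩)) = 0
            rw [rho_self, map_zero, map_zero]
          have hc0 : c 0 ∈ I := by
            rw [hc, LinearMap.sum_apply] at hθx
            simp only [LinearMap.smul_apply, hψx] at hθx
            rw [Finset.sum_eq_single 0] at hθx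
            · rw [if_pos rfl] at hθx
              have h1 : c 0 • (1 : S ⧸ I) = Ideal.Quotient.mk I (c 0) := by
                rw [Algebra.smul_def, mul_one]
                rfl
              rw [h1] at hθx
              exact Ideal.Quotient.eq_zero_iff_mem.1 hθx
            · intro i _ hi
              rw [if_neg hi, smul_zero]
            · intro h
              exact absurd (Finset.mem_univ _) h
          refine ⟨fun i => Ideal.Quotient.mk _ (c i.succ), ?_⟩
          apply LinearMap.ext
          intro y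
          obtain ⟨i, rfl⟩ := rho_surj I x y
          have h1 : θ (rho I x i) = E (θ0 i) := by
            change _ = E (E.symm (θ (rho I x i)))
            rw [LinearEquiv.apply_symm_apply]
          rw [h1, hc, LinearMap.sum_apply, map_sum, Fin.sum_univ_succ, LinearMap.sum_apply]
          have h2 : (c 0 • ψ 0) i = 0 := by
            rw [LinearMap.smul_apply]
            obtain ⟨r, hr⟩ := Ideal.Quotient.mk_surjective (ψ 0 i)
            rw [← hr]
            have h3 : c 0 • (Ideal.Quotient.mk I r) = Ideal.Quotient.mk I (c 0 * r) := rfl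
            rw [h3]
            exact Ideal.Quotient.eq_zero_iff_mem.2 (I.mul_mem_right _ hc0)
          rw [h2, map_zero, zero_add]
          refine Finset.sum_congr rfl fun j _ => ?_
          rw [LinearMap.smul_apply, LinearMap.smul_apply, desc_rho, map_smul]
          rfl)
    obtain ⟨rs', hrs', hwr'⟩ := IH
    obtain ⟨rs, hrs⟩ : ∃ rs : List S, rs.map (Ideal.Quotient.mk (Ideal.span {x})) = rs' :=
      List.map_surjective_iff.2 Ideal.Quotient.mk_surjective rs'
    refine ⟨x :: rs, ?_, ?_⟩
    · have h1 : (Ideal.ofList rs).map (Ideal.Quotient.mk (Ideal.span {x})) =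
          I.map (Ideal.Quotient.mk (Ideal.span {x})) := by
        rw [Ideal.map_ofList, hrs, hrs']
      have h2 := congrArg (Ideal.comap (Ideal.Quotient.mk (Ideal.span {x}))) h1
      rw [Ideal.comap_map_of_surjective' _ Ideal.Quotient.mk_surjective,
        Ideal.comap_map_of_surjective' _ Ideal.Quotient.mk_surjective, Ideal.mk_ker] at h2
      rw [Ideal.ofList_cons, sup_comm, h2]
      exact sup_eq_left.2 ((Ideal.span_singleton_le_iff_mem _).2 hxI)
    · rw [isWeaklyRegular_cons_iff]
      refine ⟨?_, ?_⟩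
      · intro y z hyz
        have h1 : x * (y - z) = 0 := by
          have : x * y = x * z := hyz
          rw [mul_sub, this, sub_self]
        exact sub_eq_zero.1 (hreg _ h1)
      · let e : QuotSMulTop x S ≃ₗ[S] (S ⧸ Ideal.span {x}) :=
          Submodule.quotEquivOfEq _ _ (by
            rw [← Submodule.ideal_span_singleton_smul]
            simp)
        rw [e.isWeaklyRegular_congr]
        rw [← isWeaklyRegular_map_algebraMap_iff (S ⧸ Ideal.span {x}) (S ⧸ Ideal.span {x}) rs]
        have h1 : rs.map (algebraMap S (S ⧸ Ideal.span {x})) = rs' := hrs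
        rw [h1]
        exact hwr'

end Pool.Agent.H661R3.VN
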