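import Mathlib
import Pool.Agent.H661R3.VN.Induct

set_option autoImplicit false

open CategoryTheory IsLocalRing Function RingTheory.Sequence

namespace Pool.Agent.H661R3.VN

universe u

section general

variable {R : Type u} [CommRing R] {C : Type u} [AddCommGroup C] [Module R C]
  {m : ℕ} (p : (Fin m → R) →ₗ[R] C)

/-- The embedding of the dual of `C` in a free module given by generators of `C`. -/
noncomputable def emb : (C →ₗ[R] R) →ₗ[R] (Fin m → R) where
  toFun φ j := φ (p (Pi.single j 1))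
  map_add' _ _ := rfl
  map_smul' _ _ := rfl

theorem emb_apply (φ : C →ₗ[R] R) (j : Fin m) : emb p φ j = φ (p (Pi.single j 1)) := rfl

theorem dual_eq (φ : C →ₗ[R] R) (v : Fin m → R) : φ (p v) = ∑ j, v j * emb p φ j := by
  have h := LinearMap.pi_apply_eq_sum_univ (φ ∘ₗ p) v
  rw [LinearMap.comp_apply] at h
  rw [h]
  refine Finset.sum_congr rfl fun j _ => ?_
  rw [smul_eq_mul, emb_apply, LinearMap.comp_apply]
  congr 3
  funext i
  simp [Pi.single_apply, eq_comm]

theorem emb_inj (hp : Surjective p) : Injective (emb p) := by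
  intro φ φ' h
  apply LinearMap.ext
  intro c
  obtain ⟨v, rfl⟩ := hp c
  rw [dual_eq, dual_eq, h]

/-- Membership in the range of `emb`. -/
theorem mem_range_emb (hp : Surjective p) (v : Fin m → R)
    (hv : ∀ w : Fin m → R, p w = 0 → ∑ j, w j * v j = 0) : ∃ φ, emb p φ = v := by
  let l : (Fin m → R) →ₗ[R] R :=
    { toFun := fun w => ∑ j, w j * v j
      map_add' := fun w w' => by simp [add_mul, Finset.sum_add_distrib]
      map_smul' := fun r w => by simp [Finset.mul_sum, mul_assoc] }
  have hl : LinearMap.ker p ≤ LinearMap.ker l := fun w hw => hv w hw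
  refine ⟨(Submodule.liftQ _ l hl) ∘ₗ (p.quotKerEquivOfSurjective hp).symm.toLinearMap, ?_⟩
  funext j
  have h1 : (p.quotKerEquivOfSurjective hp).symm (p (Pi.single j 1)) =
      Submodule.Quotient.mk (Pi.single j 1) := by
    rw [LinearEquiv.symm_apply_eq]
    rfl
  rw [emb_apply, LinearMap.comp_apply, LinearEquiv.coe_coe, h1]
  change ∑ i, (Pi.single j (1 : R) : Fin m → R) i * v i = v j
  simp [Pi.single_apply]

/-- If the cokernel of `emb` is projective, there are elements of `C` dual to a basis of the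
dual of `C`. -/
theorem dual_elements (hp : Surjective p) [Module.Projective R ((Fin m → R) ⧸ LinearMap.range (emb p))]
    {ι : Type*} [Fintype ι] [DecidableEq ι] (β : Module.Basis ι R (C →ₗ[R] R)) :
    ∃ γ : ι → C, ∀ i (φ : C →ₗ[R] R), φ (γ i) = β.repr φ i := by
  obtain ⟨σ, hσ⟩ := Module.projective_lifting_property
    (LinearMap.range (emb p)).mkQ LinearMap.id (Submodule.mkQ_surjective _)
  have hσ' : ∀ t, (LinearMap.range (emb p)).mkQ (σ t) = t := fun t => LinearMap.congr_fun hσ t
  have hmem : ∀ v : Fin m → R, v - σ ((LinearMap.range (emb p)).mkQ v) ∈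
      LinearMap.range (emb p) := by
    intro v
    have h0 : v - σ ((LinearMap.range (emb p)).mkQ v) ∈
        LinearMap.ker (LinearMap.range (emb p)).mkQ := by
      rw [LinearMap.mem_ker, map_sub, hσ', sub_self]
    exact (Submodule.ker_mkQ _).le h0
  let e := LinearEquiv.ofInjective (emb p) (emb_inj p hp)
  let pr : (Fin m → R) →ₗ[R] LinearMap.range (emb p) :=
    (LinearMap.id - σ ∘ₗ (LinearMap.range (emb p)).mkQ).codRestrict _ hmem
  let ρ : (Fin m → R) →ₗ[R] (C →ₗ[R] R) := e.symm.toLinearMap ∘ₗ pr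
  have hρ : ∀ φ, ρ (emb p φ) = φ := by
    intro φ
    have h1 : pr (emb p φ) = e φ := by
      apply Subtype.ext
      change emb p φ - σ ((LinearMap.range (emb p)).mkQ (emb p φ)) = emb p φ
      have h2 : (LinearMap.range (emb p)).mkQ (emb p φ) = 0 :=
        (Submodule.ker_mkQ _).ge ⟨φ, rfl⟩
      rw [h2, map_zero, sub_zero]
    change e.symm (pr (emb p φ)) = φ
    rw [h1, LinearEquiv.symm_apply_apply]
  refine ⟨fun i => p (fun j => β.repr (ρ (Pi.single j 1)) i), fun i φ => ?_⟩
  rw [dual_eq]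
  have h1 : β.repr (ρ (emb p φ)) i =
      ∑ j, emb p φ j • β.repr (ρ (Pi.single j 1)) i := by
    have h2 := LinearMap.pi_apply_eq_sum_univ ((β.coord i) ∘ₗ ρ) (emb p φ)
    simp only [LinearMap.comp_apply, Module.Basis.coord_apply] at h2
    rw [h2]
    refine Finset.sum_congr rfl fun j _ => ?_
    congr 4
    funext i
    simp [Pi.single_apply, eq_comm]
  rw [hρ] at h1
  rw [h1]
  refine Finset.sum_congr rfl fun j _ => ?_
  rw [smul_eq_mul, mul_comm]

end general

/-- If the dual of the conormal module is free and has a projective cokernel in a free module,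
then the ideal is generated by a regular sequence. -/
theorem regular_of_split {S : Type u} [CommRing S] [IsNoetherianRing S] [IsLocalRing S]
    (I : Ideal S) (hI : I ≠ ⊤) (hpd : ∃ n : ℕ, HasProjectiveDimensionLT (ModuleCat.of S I) n)
    {m : ℕ} (p : (Fin m → S ⧸ I) →ₗ[S ⧸ I] I.Cotangent) (hp : Surjective p)
    [Module.Free (S ⧸ I) (I.Cotangent →ₗ[S ⧸ I] (S ⧸ I))]
    [Module.Finite (S ⧸ I) (I.Cotangent →ₗ[S ⧸ I] (S ⧸ I))]
    [Module.Projective (S ⧸ I) ((Fin m → S ⧸ I) ⧸ LinearMap.range (emb p))] :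
    ∃ rs : List S, Ideal.ofList rs = I ∧ IsWeaklyRegular S rs := by
  have hnt : Nontrivial (S ⧸ I) := Ideal.Quotient.nontrivial_iff.2 hI
  let β := Module.finBasis (S ⧸ I) (I.Cotangent →ₗ[S ⧸ I] (S ⧸ I))
  obtain ⟨γ, hγ⟩ := dual_elements p hp β
  choose a ha using fun i => I.toCotangent_surjective (γ i)
  let ψ : Fin (Module.finrank (S ⧸ I) (I.Cotangent →ₗ[S ⧸ I] (S ⧸ I))) → (I →ₗ[S] (S ⧸ I)) :=
    fun i => ((β i).restrictScalars S) ∘ₗ I.toCotangent
  refine regseq _ S I hI hpd a ψ ?_ ?_
  · intro i j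
    change β i (I.toCotangent (a j)) = _
    rw [ha, hγ, β.repr_self, Finsupp.single_apply]
  · intro θ
    have hθ : (I • (⊤ : Submodule S I)) ≤ LinearMap.ker θ := by
      rw [Submodule.smul_le]
      intro r hr n _
      rw [LinearMap.mem_ker, map_smul]
      obtain ⟨y, hy⟩ := Ideal.Quotient.mk_surjective (θ n)
      rw [← hy]
      have h3 : r • (Ideal.Quotient.mk I y) = Ideal.Quotient.mk I (r * y) := rfl
      rw [h3]
      exact Ideal.Quotient.eq_zero_iff_mem.2 (I.mul_mem_right _ hr)
    let θ1 : I.Cotangent →ₗ[S] (S ⧸ I) := Submodule.liftQ _ θ hθ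
    let θ2 : I.Cotangent →ₗ[S ⧸ I] (S ⧸ I) :=
      LinearMap.extendScalarsOfSurjective (R := S) (S := S ⧸ I) Ideal.Quotient.mk_surjective θ1
    have hθ2 : ∀ i, θ2 (I.toCotangent i) = θ i := fun i => rfl
    choose c hc using fun i => Ideal.Quotient.mk_surjective (β.repr θ2 i)
    refine ⟨c, ?_⟩
    apply LinearMap.ext
    intro i
    rw [← hθ2, ← β.sum_repr θ2, LinearMap.sum_apply, LinearMap.sum_apply]
    refine Finset.sum_congr rfl fun j _ => ?_
    rw [LinearMap.smul_apply, LinearMap.smul_apply, ← hc]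
    rfl

/-- A ring of depth at most one. -/
theorem depth_elements (R : Type u) [CommRing R] [IsNoetherianRing R] [IsLocalRing R]
    (hd : ∀ x y : R, ¬ IsRegular R [x, y]) :
    ∃ z x : R, (∀ y, x * y ≠ z) ∧ (∀ r ∈ maximalIdeal R, ∃ y, x * y = z * r) ∧
      (x = 0 ∨ ∀ r : R, x * r = 0 → r = 0) := by
  by_cases h0 : Disjoint (maximalIdeal R : Set R) (nonZeroDivisors R)
  · obtain ⟨z, hz, hz0⟩ := SetLike.exists_of_lt
      (Ideal.bot_lt_annihilator_of_disjoint_nonZeroDivisors h0)
    refine ⟨z, 0, ?_, ?_, Or.inl rfl⟩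
    · intro y hy
      rw [zero_mul] at hy
      exact hz0 ((Submodule.mem_bot R).2 hy.symm)
    · intro r hr
      refine ⟨0, ?_⟩
      have := congrArg Subtype.val (Module.mem_annihilator.1 hz ⟨r, hr⟩)
      rw [zero_mul]
      exact this.symm
  · rw [Set.not_disjoint_iff] at h0
    obtain ⟨x, hxm, hx⟩ := h0
    have hxm' : x ∈ maximalIdeal R := hxm
    have hxr : ∀ r : R, x * r = 0 → r = 0 := (mem_nonZeroDivisors_iff.1 hx).1
    have hle : Ideal.span {x} ≤ maximalIdeal R := (Ideal.span_singleton_le_iff_mem _).2 hxm'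
    have hnt : Nontrivial (R ⧸ Ideal.span {x}) := by
      rw [Ideal.Quotient.nontrivial_iff]
      intro h
      rw [h] at hle
      exact (IsLocalRing.maximalIdeal.isMaximal R).ne_top (top_le_iff.1 hle)
    have hloc : IsLocalRing (R ⧸ Ideal.span {x}) :=
      IsLocalRing.of_surjective' (Ideal.Quotient.mk _) Ideal.Quotient.mk_surjective
    have hdis : Disjoint (maximalIdeal (R ⧸ Ideal.span {x}) : Set (R ⧸ Ideal.span {x}))
        (nonZeroDivisors (R ⧸ Ideal.span {x})) := by
      rw [Set.disjoint_left]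
      intro y hy hyr
      obtain ⟨y, rfl⟩ := Ideal.Quotient.mk_surjective y
      have hym : y ∈ maximalIdeal R := by
        rw [mem_maximalIdeal]
        intro hu
        exact hy (hu.map (Ideal.Quotient.mk (Ideal.span {x})))
      apply hd x y
      have hyreg : ∀ r : R, y * r ∈ Ideal.span {x} → r ∈ Ideal.span {x} := by
        intro r hr
        have h1 : Ideal.Quotient.mk (Ideal.span {x}) y * Ideal.Quotient.mk (Ideal.span {x}) r
            = 0 := by
          rw [← map_mul]
          exact Ideal.Quotient.eq_zero_iff_mem.2 hr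
        exact Ideal.Quotient.eq_zero_iff_mem.1 ((mem_nonZeroDivisors_iff.1 hyr).1 _ h1)
      refine ⟨?_, ?_⟩
      · rw [isWeaklyRegular_cons_iff]
        refine ⟨?_, ?_⟩
        · intro r s hrs
          have h1 : x * (r - s) = 0 := by
            have : x * r = x * s := hrs
            rw [mul_sub, this, sub_self]
          exact sub_eq_zero.1 (hxr _ h1)
        · let e : QuotSMulTop x R ≃ₗ[R] (R ⧸ Ideal.span {x}) :=
            Submodule.quotEquivOfEq _ _ (by
              rw [← Submodule.ideal_span_singleton_smul]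
              simp)
          rw [e.isWeaklyRegular_congr, isWeaklyRegular_singleton_iff]
          intro r s hrs
          obtain ⟨r, rfl⟩ := Ideal.Quotient.mk_surjective r
          obtain ⟨s, rfl⟩ := Ideal.Quotient.mk_surjective s
          have h1 : Ideal.Quotient.mk (Ideal.span {x}) (y * r) =
            Ideal.Quotient.mk (Ideal.span {x}) (y * s) := hrs
          rw [Ideal.Quotient.eq, ← mul_sub] at h1
          exact Ideal.Quotient.eq.2 (hyreg _ h1)
      · intro htop
        have h2 : Ideal.ofList [x, y] ≤ maximalIdeal R := by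
          rw [Ideal.ofList_cons, Ideal.ofList_cons, Ideal.ofList_nil, sup_bot_eq]
          exact sup_le hle ((Ideal.span_singleton_le_iff_mem _).2 hym)
        have h3 : (Ideal.ofList [x, y] • (⊤ : Submodule R R)) = Ideal.ofList [x, y] := by
          simp
        rw [h3] at htop
        rw [← htop] at h2
        exact (IsLocalRing.maximalIdeal.isMaximal R).ne_top (top_le_iff.1 h2)
    obtain ⟨z, hz, hz0⟩ := SetLike.exists_of_lt
      (Ideal.bot_lt_annihilator_of_disjoint_nonZeroDivisors hdis)
    obtain ⟨z, rfl⟩ := Ideal.Quotient.mk_surjective z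
    refine ⟨z, x, ?_, ?_, Or.inr hxr⟩
    · intro y hy
      apply hz0
      rw [Submodule.mem_bot, ← hy]
      exact Ideal.Quotient.eq_zero_iff_mem.2 (Ideal.mul_mem_right _ _
        (Ideal.mem_span_singleton_self x))
    · intro r hr
      have hr' : Ideal.Quotient.mk (Ideal.span {x}) r ∈
          maximalIdeal (R ⧸ Ideal.span {x}) := by
        rw [mem_maximalIdeal]
        intro hu
        obtain ⟨v, hv⟩ := hu.exists_right_inv
        obtain ⟨v, rfl⟩ := Ideal.Quotient.mk_surjective v
        have h1 : r * v - 1 ∈ Ideal.span {x} := Ideal.Quotient.eq.1 hv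
        have h2 : r * v - 1 ∈ maximalIdeal R := hle h1
        have h3 : (1 : R) ∈ maximalIdeal R := by
          have h4 : (1 : R) = r * v - (r * v - 1) := by ring
          rw [h4]
          exact Ideal.sub_mem _ (Ideal.mul_mem_right _ _ hr) h2
        exact (IsLocalRing.maximalIdeal.isMaximal R).ne_top (Ideal.eq_top_iff_one _ |>.2 h3)
      have h1 := congrArg Subtype.val (Module.mem_annihilator.1 hz ⟨_, hr'⟩)
      have h2 : Ideal.Quotient.mk (Ideal.span {x}) (z * r) = 0 := h1
      obtain ⟨y, hy⟩ := Ideal.mem_span_singleton'.1 (Ideal.Quotient.eq_zero_iff_mem.1 h2)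
      exact ⟨y, by rw [mul_comm, hy]⟩

/-- Vasconcelos' conjecture on the normal module in depth at most one. -/
theorem main {S : Type u} [CommRing S] [IsNoetherianRing S] [IsLocalRing S]
    (I : Ideal S) (hI : I ≠ ⊤) (hpd : ∃ n : ℕ, HasProjectiveDimensionLT (ModuleCat.of S I) n)
    (hN : ∃ n : ℕ, HasProjectiveDimensionLT
      (ModuleCat.of (S ⧸ I) (I.Cotangent →ₗ[S ⧸ I] (S ⧸ I))) n)
    (hd : ∀ x y : S ⧸ I, ¬ IsRegular (S ⧸ I) [x, y]) :
    ∃ rs : List S, Ideal.span {r : S | r ∈ rs} = I ∧ IsRegular S rs := by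
  have hnt : Nontrivial (S ⧸ I) := Ideal.Quotient.nontrivial_iff.2 hI
  have hloc : IsLocalRing (S ⧸ I) :=
    IsLocalRing.of_surjective' (Ideal.Quotient.mk _) Ideal.Quotient.mk_surjective
  have hfinC : Module.Finite (S ⧸ I) I.Cotangent := by
    have : Module.Finite S I.Cotangent :=
      Module.Finite.of_surjective I.toCotangent I.toCotangent_surjective
    exact Module.Finite.of_restrictScalars_finite S (S ⧸ I) I.Cotangent
  obtain ⟨m, p, hp⟩ := Module.Finite.exists_fin' (S ⧸ I) I.Cotangent
  have hfinN : Module.Finite (S ⧸ I) (I.Cotangent →ₗ[S ⧸ I] (S ⧸ I)) :=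
    Module.Finite.of_injective (emb p) (emb_inj p hp)
  obtain ⟨z, x, hz, hm, hx⟩ := depth_elements (S ⧸ I) hd
  obtain ⟨n, hn⟩ := hN
  have hfrN : FR (S ⧸ I) n (I.Cotangent →ₗ[S ⧸ I] (S ⧸ I)) :=
    fr_of_pd n _ (hasProjectiveDimensionLT_of_ge _ n (n + 1) (Nat.le_succ n))
  have hNfree : Module.Free (S ⧸ I) (I.Cotangent →ₗ[S ⧸ I] (S ⧸ I)) := by
    refine free_of_fr z x hz hm hx n _ hfrN ?_
    rcases hx with h | h
    · exact Or.inl h
    · refine Or.inr fun w hw => ?_
      apply LinearMap.ext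
      intro c
      exact h _ (LinearMap.congr_fun hw c)
  have hTfree : Module.Free (S ⧸ I) ((Fin m → S ⧸ I) ⧸ LinearMap.range (emb p)) := by
    refine free_of_fr z x hz hm hx 1 _ ⟨m, (LinearMap.range (emb p)).mkQ,
      Submodule.mkQ_surjective _, ?_⟩ ?_
    · rw [Submodule.ker_mkQ]
      exact ⟨Module.Free.of_equiv (LinearEquiv.ofInjective (emb p) (emb_inj p hp)),
        inferInstance⟩
    · rcases hx with h | h
      · exact Or.inl h
      · refine Or.inr fun w hw => ?_
        obtain ⟨v, rfl⟩ := Submodule.Quotient.mk_surjective _ w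
        rw [← Submodule.Quotient.mk_smul, Submodule.Quotient.mk_eq_zero] at hw
        obtain ⟨φ, hφ⟩ := hw
        rw [Submodule.Quotient.mk_eq_zero]
        refine mem_range_emb p hp v fun w hw => h _ ?_
        have h1 := dual_eq p φ w
        rw [hw, map_zero, hφ] at h1
        rw [Finset.mul_sum]
        rw [h1]
        refine Finset.sum_congr rfl fun j _ => ?_
        rw [Pi.smul_apply, smul_eq_mul]
        ring
  obtain ⟨rs, hrs, hw⟩ := regular_of_split I hI hpd p hp
  refine ⟨rs, hrs, hw, ?_⟩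
  intro htop
  apply hI
  rw [← hrs]
  have h3 : (Ideal.ofList rs • (⊤ : Submodule S S)) = Ideal.ofList rs := by
    simp
  rw [h3] at htop
  exact htop.symm

end Pool.Agent.H661R3.VN
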