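import Mathlib
import Pool.Agent.H661R3.VN.Main

set_option autoImplicit false

/-! The Auslander–Buchsbaum inequality in terms of `FR`, along a regular sequence. -/

open CategoryTheory IsLocalRing Function RingTheory.Sequence

namespace Pool.Agent.H661R3.VN

universe u

/-- Any cover of a module with a resolution of length `n + 1` has a kernel with a resolution of
length `n`. -/
theorem fr_ker {R : Type u} [CommRing R] [IsNoetherianRing R] [IsLocalRing R] (n : ℕ)
    (M : Type u) [AddCommGroup M] [Module R M] (h : FR R (n + 1) M) {k : ℕ}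
    (p : (Fin k → R) →ₗ[R] M) (hp : Surjective p) : FR R n (LinearMap.ker p) := by
  have h1 := pd_of_fr (n + 1) M h
  have hS : p.shortComplexKer.ShortExact := LinearMap.shortExact_shortComplexKer hp
  exact fr_of_pd n _ ((hS.hasProjectiveDimensionLT_X₃_iff n
      ((IsProjective.iff_projective (R := R) _).1 inferInstance)).1 h1)

theorem fr_succ {R : Type u} [CommRing R] [IsNoetherianRing R] [IsLocalRing R] (n : ℕ)
    (M : Type u) [AddCommGroup M] [Module R M] (h : FR R n M) : FR R (n + 1) M := by
  have hfin := fr_finite n M h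
  have h1 := pd_of_fr n M h
  exact fr_of_pd (n + 1) M (hasProjectiveDimensionLT_of_ge _ (n + 1) (n + 2) (Nat.le_succ _))

theorem fr_equiv {R : Type u} [CommRing R] [IsNoetherianRing R] [IsLocalRing R] (n : ℕ)
    (M N : Type u) [AddCommGroup M] [Module R M] [AddCommGroup N] [Module R N]
    (e : M ≃ₗ[R] N) (h : FR R n M) : FR R n N := by
  have hfin := fr_finite n M h
  have hfin' : Module.Finite R N := Module.Finite.equiv e
  have h1 := pd_of_fr n M h
  exact fr_of_pd n N (hasProjectiveDimensionLT_of_iso e.toModuleIso (n + 1))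

/-- Lifting a resolution from `M / x M` to `M`. -/
theorem fr_lift {R : Type u} [CommRing R] [IsNoetherianRing R] [IsLocalRing R] (x : R)
    (hxm : x ∈ maximalIdeal R) (hx : ∀ r : R, x * r = 0 → r = 0)
    [IsLocalRing (R ⧸ Ideal.span {x})] (n : ℕ) :
    ∀ (M M' : Type u) [AddCommGroup M] [Module R M] [Module.Finite R M] [AddCommGroup M']
      [Module (R ⧸ Ideal.span {x}) M']
      (q : M →ₛₗ[Ideal.Quotient.mk (Ideal.span {x})] M'), Surjective q →
      (∀ m, q m = 0 → ∃ m', m = x • m') → (∀ m : M, x • m = 0 → m = 0) →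
      FR (R ⧸ Ideal.span {x}) n M' → FR R n M := by
  induction n with
  | zero =>
    intro M M' _ _ _ _ _ q hq hker hM h
    obtain ⟨h1, h2⟩ := h
    refine ⟨?_, inferInstance⟩
    let b := Module.Free.chooseBasis (R ⧸ Ideal.span {x}) M'
    choose c hc using fun j => hq (b j)
    let p : (Module.Free.ChooseBasisIndex (R ⧸ Ideal.span {x}) M' → R) →ₗ[R] M :=
      Fintype.linearCombination R c
    have hpa : ∀ v, p v = ∑ j, v j • c j := fun v => Fintype.linearCombination_apply R c v
    have hqp : ∀ v, q (p v) = ∑ j, Ideal.Quotient.mk (Ideal.span {x}) (v j) • b j := by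
      intro v
      rw [hpa, map_sum]
      refine Finset.sum_congr rfl fun j _ => ?_
      rw [LinearMap.map_smulₛₗ, hc]
    have hjac : Ideal.span {x} ≤ Ideal.jacobson (⊥ : Ideal R) :=
      (Ideal.span_singleton_le_iff_mem _).2 (IsLocalRing.maximalIdeal_le_jacobson _ hxm)
    -- surjectivity by Nakayama
    have hsurj : Surjective p := by
      rw [← LinearMap.range_eq_top, eq_top_iff]
      refine Submodule.le_of_le_smul_of_le_jacobson_bot Module.Finite.fg_top hjac ?_
      intro m _
      choose g hg using fun j => Ideal.Quotient.mk_surjective (I := Ideal.span {x})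
        (b.repr (q m) j)
      have h3 : q (m - p g) = 0 := by
        rw [map_sub, hqp]
        simp only [hg]
        rw [b.sum_repr, sub_self]
      obtain ⟨m', hm'⟩ := hker _ h3
      have h4 : m = p g + x • m' := by rw [← hm']; abel
      rw [h4]
      exact Submodule.add_mem_sup ⟨g, rfl⟩
        (Submodule.smul_mem_smul (Ideal.mem_span_singleton_self x) trivial)
    have hinj : LinearMap.ker p = ⊥ := by
      refine Submodule.eq_bot_of_le_smul_of_le_jacobson_bot (Ideal.span {x}) _
        (IsNoetherian.noetherian _) ?_ hjac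
      intro v hv
      have h3 : ∑ j, Ideal.Quotient.mk (Ideal.span {x}) (v j) • b j = 0 := by
        rw [← hqp, (LinearMap.mem_ker.1 hv), map_zero]
      have h4 := Fintype.linearIndependent_iff.1 b.linearIndependent _ h3
      have h5 : ∀ j, ∃ y, x * y = v j := by
        intro j
        obtain ⟨y, hy⟩ := Ideal.mem_span_singleton'.1 (Ideal.Quotient.eq_zero_iff_mem.1 (h4 j))
        exact ⟨y, by rw [mul_comm, hy]⟩
      choose y hy using h5
      have hy' : x • y = v := by
        funext j
        exact hy j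
      rw [← hy']
      refine Submodule.smul_mem_smul (Ideal.mem_span_singleton_self x) ?_
      rw [LinearMap.mem_ker]
      apply hM
      rw [← map_smul, hy']
      exact hv
    exact Module.Free.of_equiv
      (LinearEquiv.ofBijective p ⟨LinearMap.ker_eq_bot.1 hinj, hsurj⟩)
  | succ n ih =>
    intro M M' _ _ _ _ _ q hq hker hM h
    obtain ⟨k, p, hp⟩ := Module.Finite.exists_fin' R M
    refine ⟨k, p, hp, ?_⟩
    let p' : (Fin k → R ⧸ Ideal.span {x}) →ₗ[R ⧸ Ideal.span {x}] M' :=
      Fintype.linearCombination (R ⧸ Ideal.span {x}) (fun j => q (p (Pi.single j 1)))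
    have hp' : ∀ v : Fin k → R, p' (fun j => Ideal.Quotient.mk _ (v j)) = q (p v) := by
      intro v
      rw [LinearMap.pi_apply_eq_sum_univ p v, map_sum]
      simp only [p', Fintype.linearCombination_apply, LinearMap.map_smulₛₗ]
      refine Finset.sum_congr rfl fun j _ => ?_
      congr 3
      ext i
      simp [Pi.single_apply, eq_comm]
    have hp'surj : Surjective p' := by
      intro x
      obtain ⟨m, rfl⟩ := hq x
      obtain ⟨v, rfl⟩ := hp m
      exact ⟨_, hp' v⟩
    have hk : FR (R ⧸ Ideal.span {x}) n (LinearMap.ker p') := fr_ker n M' h p' hp'surj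
    let κ : LinearMap.ker p →ₛₗ[Ideal.Quotient.mk (Ideal.span {x})] LinearMap.ker p' :=
        { toFun := fun v => ⟨fun j => Ideal.Quotient.mk _ ((v : Fin k → R) j), by
            rw [LinearMap.mem_ker, hp', v.2, map_zero]⟩
          map_add' := fun v w => by
            apply Subtype.ext
            funext j
            simp
          map_smul' := fun r v => by
            apply Subtype.ext
            funext j
            simp }
    refine ih _ _ κ ?_ ?_ ?_ hk
    · rintro ⟨w, hw⟩
      choose v hv using fun j => Ideal.Quotient.mk_surjective (I := Ideal.span {x}) (w j)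
      have hw' : w = fun j => Ideal.Quotient.mk (Ideal.span {x}) (v j) := by
        funext j
        exact (hv j).symm
      have h1 : q (p v) = 0 := by
        rw [← hp', ← hw']
        exact hw
      obtain ⟨m', hm'⟩ := hker _ h1
      obtain ⟨y, rfl⟩ := hp m'
      refine ⟨⟨v - x • y, by rw [LinearMap.mem_ker, map_sub, map_smul, hm', sub_self]⟩, ?_⟩
      apply Subtype.ext
      funext j
      have h2 : Ideal.Quotient.mk (Ideal.span {x}) x = 0 :=
        Ideal.Quotient.eq_zero_iff_mem.2 (Ideal.mem_span_singleton_self x)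
      simp [κ, h2, hv]
    · rintro ⟨v, hv⟩ hv0
      have h1 : ∀ j, ∃ y, x * y = v j := by
        intro j
        have h2 := congrFun (congrArg Subtype.val hv0) j
        have h3 : v j ∈ Ideal.span {x} := Ideal.Quotient.eq_zero_iff_mem.1 h2
        obtain ⟨y, hy⟩ := Ideal.mem_span_singleton'.1 h3
        exact ⟨y, by rw [mul_comm, hy]⟩
      choose y hy using h1
      have hy' : x • y = v := by
        funext j
        exact hy j
      refine ⟨⟨y, ?_⟩, Subtype.ext hy'.symm⟩
      rw [LinearMap.mem_ker]
      apply hM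
      rw [← map_smul, hy']
      exact hv
    · rintro ⟨v, hv⟩ h1
      apply Subtype.ext
      funext j
      exact hx _ (congrFun (congrArg Subtype.val h1) j)

/-- `Dep R t`: there is a chain of regular elements of length `t` ending in depth zero. -/
def Dep : (R : Type u) → [CommRing R] → ℕ → Prop
  | R, _, 0 => ∃ z : R, z ≠ 0 ∧ ∀ y : R, ¬ IsUnit y → z * y = 0
  | R, _, t + 1 => ∃ x : R, ¬ IsUnit x ∧ (∀ r : R, x * r = 0 → r = 0) ∧
      Dep (R ⧸ Ideal.span {x}) t

theorem fr_mono {R : Type u} [CommRing R] [IsNoetherianRing R] [IsLocalRing R] (n k : ℕ)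
    (h : n ≤ k) (M : Type u) [AddCommGroup M] [Module R M] (hM : FR R n M) : FR R k M := by
  induction k, h using Nat.le_induction with
  | base => exact hM
  | succ k _ ih => exact fr_succ k M ih

theorem quot_local {R : Type u} [CommRing R] [IsLocalRing R] (x : R) (hx : ¬ IsUnit x) :
    IsLocalRing (R ⧸ Ideal.span {x}) := by
  have hnt : Nontrivial (R ⧸ Ideal.span {x}) := by
    rw [Ideal.Quotient.nontrivial_iff]
    intro h
    exact hx (Ideal.span_singleton_eq_top.1 h)
  exact IsLocalRing.of_surjective' (Ideal.Quotient.mk _) Ideal.Quotient.mk_surjective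

/-- Torsion-free modules: one better than the general bound. -/
theorem ab_torsionfree {R : Type u} [CommRing R] [IsNoetherianRing R] [IsLocalRing R] (t : ℕ)
    (x : R) (hxu : ¬ IsUnit x) (hx : ∀ r : R, x * r = 0 → r = 0)
    (hAB : ∀ (n : ℕ) (M : Type u) [AddCommGroup M] [Module (R ⧸ Ideal.span {x}) M],
      FR (R ⧸ Ideal.span {x}) n M → FR (R ⧸ Ideal.span {x}) t M)
    (n : ℕ) (M : Type u) [AddCommGroup M] [Module R M] (hM : ∀ m : M, x • m = 0 → m = 0)
    (h : FR R n M) : FR R t M := by
  have hloc := quot_local x hxu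
  have hfin := fr_finite n M h
  let M' := M ⧸ (Ideal.span {x} • (⊤ : Submodule R M))
  let q : M →ₛₗ[Ideal.Quotient.mk (Ideal.span {x})] M' :=
    { toFun := fun i => Submodule.Quotient.mk i
      map_add' := fun i j => rfl
      map_smul' := fun r i => rfl }
  have hker : ∀ m, q m = 0 → ∃ m', m = x • m' := by
    intro m hm
    have h1 := (Submodule.Quotient.mk_eq_zero _).1 hm
    rw [Submodule.ideal_span_singleton_smul, Submodule.mem_smul_pointwise_iff_exists] at h1
    obtain ⟨b, _, hb⟩ := h1
    exact ⟨b, hb.symm⟩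
  have h1 : FR (R ⧸ Ideal.span {x}) n M' :=
    fr_red x hx n M M' q (Submodule.Quotient.mk_surjective _) hker hM h
  exact fr_lift x ((mem_maximalIdeal _).2 hxu) hx t M M' q
    (Submodule.Quotient.mk_surjective _) hker hM (hAB n M' h1)

/-- The Auslander–Buchsbaum inequality. -/
theorem ab (t : ℕ) : ∀ (R : Type u) [CommRing R] [IsNoetherianRing R] [IsLocalRing R],
    Dep R t → ∀ (n : ℕ) (M : Type u) [AddCommGroup M] [Module R M], FR R n M → FR R t M := by
  induction t with
  | zero =>
    intro R _ _ _ hd n M _ _ h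
    obtain ⟨z, hz0, hz⟩ := hd
    refine ⟨free_of_fr z 0 ?_ ?_ (Or.inl rfl) n M h (Or.inl rfl), fr_finite n M h⟩
    · intro y hy
      rw [zero_mul] at hy
      exact hz0 hy.symm
    · intro r hr
      exact ⟨0, by rw [zero_mul, hz r ((mem_maximalIdeal _).1 hr)]⟩
  | succ t ih =>
    intro R _ _ _ hd n M _ _ h
    obtain ⟨x, hxu, hx, hd'⟩ := hd
    have hloc := quot_local x hxu
    cases n with
    | zero => exact fr_mono 0 (t + 1) (Nat.zero_le _) M h
    | succ n =>
      obtain ⟨k, p, hp, hk⟩ := h
      refine ⟨k, p, hp, ?_⟩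
      refine ab_torsionfree t x hxu hx (fun n M _ _ => ih _ hd' n M) n _ ?_ hk
      rintro ⟨v, hv⟩ h1
      apply Subtype.ext
      funext j
      exact hx _ (congrFun (congrArg Subtype.val h1) j)

/-- Extension of functionals from `Ext ^ 1 = 0`. -/
theorem extend_of_ext {R : Type u} [CommRing R] {M : Type u} [AddCommGroup M] [Module R M]
    {k : ℕ} (p : (Fin k → R) →ₗ[R] M) (hp : Surjective p)
    (h : Subsingleton (Abelian.Ext (ModuleCat.of R M) (ModuleCat.of R R) 1))
    (f : LinearMap.ker p →ₗ[R] R) : ∃ g : (Fin k → R) →ₗ[R] R, ∀ v, g v.1 = f v := by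
  have hS : p.shortComplexKer.ShortExact := LinearMap.shortExact_shortComplexKer hp
  have hf0 : hS.extClass.comp (Abelian.Ext.mk₀ (ModuleCat.ofHom f)) (show 1 + 0 = 1 from rfl) = 0 :=
    Subsingleton.elim _ _
  obtain ⟨x₂, hx₂⟩ := Abelian.Ext.contravariant_sequence_exact₁ hS _
    (Abelian.Ext.mk₀ (ModuleCat.ofHom f)) (show 1 + 0 = 1 from rfl) hf0
  obtain ⟨g, rfl⟩ := (Abelian.Ext.mk₀_bijective _ _).2 x₂
  rw [Abelian.Ext.mk₀_comp_mk₀, (Abelian.Ext.mk₀_bijective _ _).1.eq_iff] at hx₂
  refine ⟨g.hom, fun v => ?_⟩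
  have h2 := congrArg (fun φ => φ.hom v) hx₂
  exact h2

/-- Dimension shifting. -/
theorem ext_shift {R : Type u} [CommRing R] {M : Type u} [AddCommGroup M] [Module R M]
    {k : ℕ} (p : (Fin k → R) →ₗ[R] M) (hp : Surjective p) (i : ℕ) (hi : 1 ≤ i)
    (h : Subsingleton (Abelian.Ext (ModuleCat.of R M) (ModuleCat.of R R) (i + 1))) :
    Subsingleton (Abelian.Ext (ModuleCat.of R (LinearMap.ker p)) (ModuleCat.of R R) i) := by
  have hS : p.shortComplexKer.ShortExact := LinearMap.shortExact_shortComplexKer hp
  refine subsingleton_of_forall_eq 0 fun e => ?_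
  have hf0 : hS.extClass.comp e (show 1 + i = i + 1 from add_comm 1 i) = 0 :=
    Subsingleton.elim _ _
  obtain ⟨x₂, hx₂⟩ := Abelian.Ext.contravariant_sequence_exact₁ hS _ e
    (show 1 + i = i + 1 from add_comm 1 i) hf0
  have hproj : Projective (ModuleCat.of R (Fin k → R)) :=
    (IsProjective.iff_projective (R := R) _).1 inferInstance
  obtain ⟨i, rfl⟩ : ∃ i', i = i' + 1 := ⟨i - 1, by omega⟩
  have h0 : x₂ = 0 := Abelian.Ext.eq_zero_of_projective (P := ModuleCat.of R (Fin k → R)) x₂
  rw [← hx₂, h0, Abelian.Ext.comp_zero]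

end Pool.Agent.H661R3.VN
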