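import Mathlib
import Pool.Agent.H661R3.VN.AB

set_option autoImplicit false

open CategoryTheory IsLocalRing Function RingTheory.Sequence

namespace Pool.Agent.H661R3.VN

universe u

/-- The cokernel of `emb p` has no `x`-torsion. -/
theorem coker_torsionfree {R : Type u} [CommRing R] {C : Type u} [AddCommGroup C] [Module R C]
    {m : ℕ} (p : (Fin m → R) →ₗ[R] C) (hp : Surjective p) (x : R)
    (hx : ∀ r : R, x * r = 0 → r = 0) (w : (Fin m → R) ⧸ LinearMap.range (emb p))
    (hw : x • w = 0) : w = 0 := by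
  obtain ⟨v, rfl⟩ := Submodule.Quotient.mk_surjective _ w
  rw [← Submodule.Quotient.mk_smul, Submodule.Quotient.mk_eq_zero] at hw
  obtain ⟨φ, hφ⟩ := hw
  rw [Submodule.Quotient.mk_eq_zero]
  refine mem_range_emb p hp v fun w hw => hx _ ?_
  have h1 := dual_eq p φ w
  rw [hw, map_zero, hφ] at h1
  rw [Finset.mul_sum]
  rw [h1]
  refine Finset.sum_congr rfl fun j _ => ?_
  rw [Pi.smul_apply, smul_eq_mul]
  ring

/-- If `Ext ^ 1 (M, R) = 0`, the cokernel of `emb p` is the dual of the kernel of `p`. -/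
theorem coker_equiv {R : Type u} [CommRing R] {M : Type u} [AddCommGroup M] [Module R M]
    {m : ℕ} (p : (Fin m → R) →ₗ[R] M) (hp : Surjective p)
    (h : Subsingleton (Abelian.Ext (ModuleCat.of R M) (ModuleCat.of R R) 1)) :
    Nonempty (((Fin m → R) ⧸ LinearMap.range (emb p)) ≃ₗ[R] (LinearMap.ker p →ₗ[R] R)) := by
  let Φ : (Fin m → R) →ₗ[R] (LinearMap.ker p →ₗ[R] R) :=
    { toFun := fun v =>
        { toFun := fun k => ∑ j, (k : Fin m → R) j * v j
          map_add' := fun k k' => by simp [add_mul, Finset.sum_add_distrib]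
          map_smul' := fun r k => by simp [Finset.mul_sum, mul_assoc] }
      map_add' := fun v w => by
        apply LinearMap.ext
        intro k
        simp [mul_add, Finset.sum_add_distrib]
      map_smul' := fun r v => by
        apply LinearMap.ext
        intro k
        simp [Finset.mul_sum, mul_left_comm] }
  have hΦ : ∀ v k, Φ v k = ∑ j, (k : Fin m → R) j * v j := fun v k => rfl
  have hker : LinearMap.ker Φ = LinearMap.range (emb p) := by
    ext v
    rw [LinearMap.mem_ker, LinearMap.mem_range]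
    constructor
    · intro hv
      refine mem_range_emb p hp v fun w hw => ?_
      exact LinearMap.congr_fun hv ⟨w, hw⟩
    · rintro ⟨φ, rfl⟩
      apply LinearMap.ext
      rintro ⟨k, hk⟩
      rw [hΦ]
      have h1 := dual_eq p φ k
      rw [LinearMap.mem_ker.1 hk, map_zero] at h1
      exact h1.symm
  have hsurj : Surjective Φ := by
    intro f
    obtain ⟨g, hg⟩ := extend_of_ext p hp h f
    refine ⟨fun j => g (Pi.single j 1), ?_⟩
    apply LinearMap.ext
    intro k
    rw [hΦ, ← hg, LinearMap.pi_apply_eq_sum_univ g]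
    refine Finset.sum_congr rfl fun j _ => ?_
    rw [smul_eq_mul]
    congr 2
    funext i
    simp [Pi.single_apply, eq_comm]
  exact ⟨(Submodule.quotEquivOfEq _ _ hker.symm).trans (Φ.quotKerEquivOfSurjective hsurj)⟩

theorem coker_fr {R : Type u} [CommRing R] [IsNoetherianRing R] [IsLocalRing R] (t : ℕ)
    (x : R) (hxu : ¬ IsUnit x) (hx : ∀ r : R, x * r = 0 → r = 0)
    (hAB : ∀ (n : ℕ) (M : Type u) [AddCommGroup M] [Module (R ⧸ Ideal.span {x}) M],
      FR (R ⧸ Ideal.span {x}) n M → FR (R ⧸ Ideal.span {x}) t M) (j : ℕ) : j ≤ t →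
    ∀ (M : Type u) [AddCommGroup M] [Module R M] [Module.Finite R M] (m : ℕ)
      (p : (Fin m → R) →ₗ[R] M), Surjective p →
      (∀ i, 1 ≤ i → i ≤ j →
        Subsingleton (Abelian.Ext (ModuleCat.of R M) (ModuleCat.of R R) i)) →
      ∀ n, FR R n ((Fin m → R) ⧸ LinearMap.range (emb p)) →
        FR R (t - j) ((Fin m → R) ⧸ LinearMap.range (emb p)) := by
  induction j with
  | zero =>
    intro _ M _ _ _ m p hp _ n h
    exact ab_torsionfree t x hxu hx hAB n _ (coker_torsionfree p hp x hx) h
  | succ j ih =>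
    intro hj M _ _ _ m p hp hext n h
    obtain ⟨e⟩ := coker_equiv p hp (hext 1 le_rfl (by omega))
    obtain ⟨m1, p1, hp1⟩ := Module.Finite.exists_fin' R (LinearMap.ker p)
    let e1 := LinearEquiv.ofInjective (emb p1) (emb_inj p1 hp1)
    have h1 : FR R (n + 1) ((Fin m1 → R) ⧸ LinearMap.range (emb p1)) := by
      refine ⟨m1, (LinearMap.range (emb p1)).mkQ, Submodule.mkQ_surjective _, ?_⟩
      rw [Submodule.ker_mkQ]
      exact fr_equiv n _ _ (e.trans e1) h
    have h2 := ih (by omega) (LinearMap.ker p) m1 p1 hp1 (fun i hi1 hi2 =>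
      ext_shift p hp i hi1 (hext (i + 1) (by omega) (by omega))) (n + 1) h1
    have h3 : t - j = (t - (j + 1)) + 1 := by omega
    rw [h3] at h2
    have h4 := fr_ker _ _ h2 (LinearMap.range (emb p1)).mkQ (Submodule.mkQ_surjective _)
    rw [Submodule.ker_mkQ] at h4
    exact fr_equiv _ _ _ (e.trans e1).symm h4

/-- The general theorem. -/
theorem main_dep {S : Type u} [CommRing S] [IsNoetherianRing S] [IsLocalRing S]
    (I : Ideal S) (hI : I ≠ ⊤) (hpd : ∃ n : ℕ, HasProjectiveDimensionLT (ModuleCat.of S I) n)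
    (hN : ∃ n : ℕ, HasProjectiveDimensionLT
      (ModuleCat.of (S ⧸ I) (I.Cotangent →ₗ[S ⧸ I] (S ⧸ I))) n)
    (t : ℕ) (hd : Dep (S ⧸ I) t)
    (hext : ∀ i, 1 ≤ i → i < t → Subsingleton (Abelian.Ext
      (ModuleCat.of (S ⧸ I) I.Cotangent) (ModuleCat.of (S ⧸ I) (S ⧸ I)) i)) :
    ∃ rs : List S, Ideal.span {r : S | r ∈ rs} = I ∧ IsRegular S rs := by
  have hnt : Nontrivial (S ⧸ I) := Ideal.Quotient.nontrivial_iff.2 hI
  have hloc : IsLocalRing (S ⧸ I) :=
    IsLocalRing.of_surjective' (Ideal.Quotient.mk _) Ideal.Quotient.mk_surjective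
  have hfinC : Module.Finite (S ⧸ I) I.Cotangent := by
    have : Module.Finite S I.Cotangent :=
      Module.Finite.of_surjective I.toCotangent I.toCotangent_surjective
    exact Module.Finite.of_restrictScalars_finite S (S ⧸ I) I.Cotangent
  obtain ⟨m, p, hp⟩ := Module.Finite.exists_fin' (S ⧸ I) I.Cotangent
  have hfinN : Module.Finite (S ⧸ I) (I.Cotangent →ₗ[S ⧸ I] (S ⧸ I)) :=
    Module.Finite.of_injective (emb p) (emb_inj p hp)
  obtain ⟨n, hn⟩ := hN
  have hfrN : FR (S ⧸ I) n (I.Cotangent →ₗ[S ⧸ I] (S ⧸ I)) :=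
    fr_of_pd n _ (hasProjectiveDimensionLT_of_ge _ n (n + 1) (Nat.le_succ n))
  let e1 := LinearEquiv.ofInjective (emb p) (emb_inj p hp)
  have hT : FR (S ⧸ I) (n + 1) ((Fin m → S ⧸ I) ⧸ LinearMap.range (emb p)) := by
    refine ⟨m, (LinearMap.range (emb p)).mkQ, Submodule.mkQ_surjective _, ?_⟩
    rw [Submodule.ker_mkQ]
    exact fr_equiv n _ _ e1 hfrN
  have hT0 : FR (S ⧸ I) 0 ((Fin m → S ⧸ I) ⧸ LinearMap.range (emb p)) := by
    cases t with
    | zero => exact ab 0 (S ⧸ I) hd (n + 1) _ hT
    | succ t =>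
      obtain ⟨x, hxu, hx, hd'⟩ := hd
      have hlocx := quot_local x hxu
      have := coker_fr t x hxu hx (fun n M _ _ => ab t _ hd' n M) t le_rfl I.Cotangent m p hp
        (fun i h1 h2 => hext i h1 (by omega)) (n + 1) hT
      rwa [Nat.sub_self] at this
  have hN0 : FR (S ⧸ I) 0 (I.Cotangent →ₗ[S ⧸ I] (S ⧸ I)) := by
    have h4 := fr_ker 0 _ (fr_succ 0 _ hT0) (LinearMap.range (emb p)).mkQ
      (Submodule.mkQ_surjective _)
    rw [Submodule.ker_mkQ] at h4
    exact fr_equiv _ _ _ e1.symm h4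
  have hTfree := hT0.1
  have hNfree := hN0.1
  obtain ⟨rs, hrs, hw⟩ := regular_of_split I hI hpd p hp
  refine ⟨rs, hrs, hw, ?_⟩
  intro htop
  apply hI
  rw [← hrs]
  have h3 : (Ideal.ofList rs • (⊤ : Submodule S S)) = Ideal.ofList rs := by
    simp
  rw [h3] at htop
  exact htop.symm

/-- Regular sequences on a quotient by a regular element. -/
theorem isRegular_cons_quot {R : Type u} [CommRing R] (x : R) (xs : List R) :
    IsRegular R (x :: xs) ↔ (∀ r : R, x * r = 0 → r = 0) ∧
      IsRegular (R ⧸ Ideal.span {x}) (xs.map (Ideal.Quotient.mk (Ideal.span {x}))) := by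
  rw [isRegular_cons_iff]
  refine and_congr ?_ ?_
  · constructor
    · intro h r hr
      exact h (by change x * r = x * 0; rw [hr, mul_zero])
    · intro h r s hrs
      have h1 : x * (r - s) = 0 := by
        have : x * r = x * s := hrs
        rw [mul_sub, this, sub_self]
      exact sub_eq_zero.1 (h _ h1)
  · let e : QuotSMulTop x R ≃ₗ[R] (R ⧸ Ideal.span {x}) :=
      Submodule.quotEquivOfEq _ _ (by
        rw [← Submodule.ideal_span_singleton_smul]
        simp)
    rw [e.isRegular_congr]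
    exact (AddEquiv.isRegular_congr (R := R ⧸ Ideal.span {x}) (S := R)
      (e := AddEquiv.refl (R ⧸ Ideal.span {x}))
      (as := xs.map (Ideal.Quotient.mk (Ideal.span {x}))) (bs := xs)
      (List.forall₂_map_left_iff.mpr <| List.forall₂_same.mpr fun r _ y => rfl)).symm

/-- A maximal regular sequence computes `Dep`. -/
theorem dep_of_regular (t : ℕ) : ∀ (R : Type u) [CommRing R] [IsNoetherianRing R]
    [IsLocalRing R] (xs : List R), xs.length = t → IsRegular R xs →
    (∀ y, ¬ IsRegular R (xs ++ [y])) → Dep R t := by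
  induction t with
  | zero =>
    intro R _ _ _ xs hlen hreg hmax
    have hxs : xs = [] := List.length_eq_zero_iff.1 hlen
    subst hxs
    have hdis : Disjoint (maximalIdeal R : Set R) (nonZeroDivisors R) := by
      rw [Set.disjoint_left]
      intro y hy hyr
      apply hmax y
      change IsRegular R [y]
      rw [isRegular_cons_quot]
      refine ⟨(mem_nonZeroDivisors_iff.1 hyr).1, ?_⟩
      have hloc := quot_local y hy
      exact IsRegular.nil _ _
    obtain ⟨z, hz, hz0⟩ := SetLike.exists_of_lt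
      (Ideal.bot_lt_annihilator_of_disjoint_nonZeroDivisors hdis)
    refine ⟨z, fun h => hz0 ((Submodule.mem_bot R).2 h), fun y hy => ?_⟩
    exact congrArg Subtype.val (Module.mem_annihilator.1 hz ⟨y, hy⟩)
  | succ t ih =>
    intro R _ _ _ xs hlen hreg hmax
    cases xs with
    | nil => simp at hlen
    | cons x xs =>
      have hxu : ¬ IsUnit x := by
        intro hu
        apply hreg.top_ne_smul
        have h1 : Ideal.ofList (x :: xs) = ⊤ := by
          rw [Ideal.ofList_cons, Ideal.span_singleton_eq_top.2 hu, top_sup_eq]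
        rw [h1, Submodule.top_smul]
      have hloc := quot_local x hxu
      obtain ⟨hx, hreg'⟩ := (isRegular_cons_quot x xs).1 hreg
      refine ⟨x, hxu, hx, ih _ (xs.map (Ideal.Quotient.mk (Ideal.span {x})))
        (by simpa using hlen) hreg' ?_⟩
      intro y hy
      obtain ⟨y, rfl⟩ := Ideal.Quotient.mk_surjective y
      apply hmax y
      change IsRegular R (x :: (xs ++ [y]))
      rw [isRegular_cons_quot]
      refine ⟨hx, ?_⟩
      rw [List.map_append]
      exact hy

end Pool.Agent.H661R3.VN
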